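import Mathlib
import Pool.Agent.TH393.LkF

set_option autoImplicit false

/-!
The Kruskal-Katona function `Fm`: subadditivity, values on initial segments, the cascade recursion.
-/

namespace Pool.Agent.Q130.FAC

open Finset Pool.Agent.TH393.Lk
open scoped FinsetFamily

/-- subadditivity of the minimum shadow function -/
lemma Fm_add (k a b : ℕ) : Fm k (a + b) ≤ Fm k a + Fm k b := by
  rcases Nat.eq_zero_or_pos k with rfl | hk
  · simp [Fm_zero]
  · obtain ⟨𝒜, h1, h2, h3⟩ := Fm_opt k a hk
    obtain ⟨ℬ, g1, g2, g3⟩ := Fm_opt k b hk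
    obtain ⟨N, hN⟩ : ∃ N, N = (𝒜.sup id).sup id + 1 := ⟨_, rfl⟩
    let f : ℕ ↪ ℕ := ⟨fun x => x + N, fun x y h => by simpa using h⟩
    have hdisj : Disjoint 𝒜 (fmap f ℬ) := by
      rw [disjoint_left]
      intro X hX hX'
      obtain ⟨Y, hY, rfl⟩ := mem_fmap.1 hX'
      have hne : (Y.map f).Nonempty := by
        rw [← card_pos, h2 _ hX]; exact hk
      obtain ⟨z, hz⟩ := hne
      have h4 : z ≤ (𝒜.sup id).sup id := by
        have : z ∈ 𝒜.sup id := mem_sup.2 ⟨_, hX, hz⟩
        exact le_sup (f := id) this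
      obtain ⟨w, -, rfl⟩ := mem_map.1 hz
      have h5 : f w = w + N := rfl
      omega
    have hc : (𝒜 ∪ fmap f ℬ).card = a + b := by
      rw [card_union_of_disjoint hdisj, card_fmap, h1, g1]
    have hs : ∀ A ∈ 𝒜 ∪ fmap f ℬ, A.card = k := by
      intro A hA
      rcases mem_union.1 hA with hA | hA
      · exact h2 A hA
      · exact sized_fmap g2 A hA
    have hsub : shadow (𝒜 ∪ fmap f ℬ) ⊆ shadow 𝒜 ∪ shadow (fmap f ℬ) := by
      intro Y hY
      obtain ⟨A, hA, x, hx, rfl⟩ := mem_shadow_iff.1 hY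
      rcases mem_union.1 hA with hA | hA
      · exact mem_union_left _ (erase_mem_shadow hA hx)
      · exact mem_union_right _ (erase_mem_shadow hA hx)
    calc Fm k (a + b) ≤ (shadow (𝒜 ∪ fmap f ℬ)).card := Fm_le _ hc hs
      _ ≤ (shadow 𝒜 ∪ shadow (fmap f ℬ)).card := card_le_card hsub
      _ ≤ (shadow 𝒜).card + (shadow (fmap f ℬ)).card := card_union_le _ _
      _ = Fm k a + Fm k b := by rw [shadow_fmap, card_fmap, h3, g3]

lemma lt_of_colex_lt {N m : ℕ} {s t : Finset (Fin N)} (hs : ∀ x ∈ s, x.val < m)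
    (h : toColex t < toColex s) : ∀ x ∈ t, x.val < m := by
  rw [Colex.toColex_lt_toColex_iff_exists_forall_lt] at h
  obtain ⟨a, ha, _, hb⟩ := h
  intro x hx
  by_cases hxs : x ∈ s
  · exact hs x hxs
  · have h1 := hb x hx hxs
    have h2 := hs a ha
    exact lt_trans h1 h2

lemma isInitSeg_castLE {n N r : ℕ} (h : n ≤ N) {𝒞 : Finset (Finset (Fin n))}
    (h𝒞 : Colex.IsInitSeg 𝒞 r) : Colex.IsInitSeg (fmap (Fin.castLEEmb h) 𝒞) r := by
  refine ⟨?_, ?_⟩
  · intro B hB
    exact sized_fmap (fun A hA => h𝒞.1 hA) B hB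
  · rintro s t hs ⟨hts, ht⟩
    obtain ⟨s', hs', rfl⟩ := mem_fmap.1 hs
    have hlt : ∀ x ∈ t, x.val < n := by
      refine lt_of_colex_lt (s := s'.map (Fin.castLEEmb h)) ?_ hts
      intro x hx
      obtain ⟨y, -, rfl⟩ := mem_map.1 hx
      exact y.2
    have ht' : (univ.filter fun i : Fin n => Fin.castLE h i ∈ t).map (Fin.castLEEmb h) = t := by
      ext x
      simp only [mem_map, mem_filter, mem_univ, true_and]
      constructor
      · rintro ⟨y, hy, rfl⟩; exact hy
      · intro hx
        refine ⟨⟨x.val, hlt x hx⟩, ?_, ?_⟩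
        · have : Fin.castLE h ⟨x.val, hlt x hx⟩ = x := Fin.ext rfl
          rw [this]; exact hx
        · exact Fin.ext rfl
    refine mem_fmap.2 ⟨_, ?_, ht'⟩
    refine h𝒞.2 hs' ⟨?_, ?_⟩
    · rw [← ht'] at hts
      rw [map_eq_image, map_eq_image] at hts
      exact (Colex.toColex_image_lt_toColex_image (Fin.strictMono_castLE h)).1 hts
    · rw [← card_map (Fin.castLEEmb h), ht', ht]

/-- initial segments minimise the shadow -/
lemma initSeg_shadow {n r : ℕ} {𝒞 : Finset (Finset (Fin n))} (h𝒞 : Colex.IsInitSeg 𝒞 r) :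
    (∂ 𝒞).card = Fm r 𝒞.card := by
  refine le_antisymm ?_ (Fm_le_fin 𝒞 fun A hA => h𝒞.1 hA)
  rcases Nat.eq_zero_or_pos r with rfl | hr
  · rw [Fm_zero, Nat.le_zero, card_eq_zero, eq_empty_iff_forall_notMem]
    intro Y hY
    obtain ⟨a, ha, hA⟩ := mem_shadow_iff_insert_mem.1 hY
    have := h𝒞.1 hA
    simp at this
  · obtain ⟨𝒟, h1, h2, h3⟩ := Fm_opt r 𝒞.card hr
    obtain ⟨N₀, hN₀⟩ := to_fin 𝒟
    obtain ⟨ℰ, hℰ⟩ := hN₀ (max N₀ n) (le_max_left _ _)
    have s1 : ∀ A ∈ ℰ, A.card = r :=
      sized_of_fmap (f := Fin.valEmbedding) (by rw [hℰ]; exact h2)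
    have c1 : ℰ.card = 𝒞.card := by rw [← card_fmap Fin.valEmbedding, hℰ, h1]
    have d1 : ℰ.shadow.card = Fm r 𝒞.card := by
      rw [← card_fmap Fin.valEmbedding, ← shadow_fmap, hℰ, h3]
    have hI := isInitSeg_castLE (le_max_right N₀ n) h𝒞
    have := kruskal_katona (𝒜 := ℰ) (𝒞 := fmap (Fin.castLEEmb (le_max_right N₀ n)) 𝒞)
      (fun A hA => s1 A hA) (by rw [card_fmap, c1]) hI
    rw [shadow_fmap, card_fmap, d1] at this
    exact this

/-- the first `m` elements -/
def seg (N m : ℕ) : Finset (Fin N) := univ.filter fun x => x.val < m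

lemma mem_seg {N m : ℕ} {x : Fin N} : x ∈ seg N m ↔ x.val < m := by simp [seg]

lemma card_seg {N m : ℕ} (h : m ≤ N) : (seg N m).card = m := by
  unfold seg
  rw [Fin.card_filter_val_lt, min_eq_right h]

lemma powersetCard_init {N : ℕ} (m r : ℕ) : Colex.IsInitSeg (powersetCard r (seg N m)) r := by
  refine ⟨?_, ?_⟩
  · intro s hs
    exact (mem_powersetCard.1 (mem_coe.1 hs)).2
  · rintro s t hs ⟨hlt, hcard⟩
    rw [mem_powersetCard] at hs ⊢
    exact ⟨fun x hx => mem_seg.2 (lt_of_colex_lt (fun y hy => mem_seg.1 (hs.1 hy)) hlt x hx), hcard⟩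

/-- the cascade recursion -/
lemma Fm_rec (y r m : ℕ) (hm : m ≤ y.choose r) (h1 : 1 ≤ m ∨ r + 1 ≤ y) :
    Fm (r + 1) (y.choose (r + 1) + m) = y.choose r + Fm r m := by
  obtain ⟨S, hS⟩ : ∃ S, S = seg (y + 1) y := ⟨_, rfl⟩
  have hScard : S.card = y := by rw [hS]; exact card_seg (by omega)
  obtain ⟨v, hv⟩ : ∃ v : Fin (y + 1), v = Fin.last y := ⟨_, rfl⟩
  have hvval : v.val = y := by rw [hv]; rfl
  have hvS : v ∉ S := by rw [hS, mem_seg]; omega
  have hmemS : ∀ x : Fin (y + 1), x ≠ v → x ∈ S := by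
    intro x hx
    rw [hS, mem_seg]
    have h2 := x.2
    have h3 : x.val ≠ y := fun h => hx (Fin.ext (by rw [h, hvval]))
    omega
  obtain ⟨𝒞, h𝒞, hcard⟩ := exists_initSeg (y + 1) r m (by
    rw [card_powersetCard, card_univ, Fintype.card_fin]
    exact hm.trans (Nat.choose_le_choose _ (Nat.le_succ y)))
  have hpc : (powersetCard r S).card = y.choose r := by rw [card_powersetCard, hScard]
  have hsub : 𝒞 ⊆ powersetCard r S := by
    rcases h𝒞.total (by rw [hS]; exact powersetCard_init y r : Colex.IsInitSeg (powersetCard r S) r)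
      with h4 | h4
    · exact h4
    · have h5 : 𝒞 = powersetCard r S := (eq_of_subset_of_card_le h4 (by rw [hpc, hcard]; exact hm)).symm
      rw [h5]
  have hsubS : ∀ s ∈ 𝒞, s ⊆ S := fun s hs => (mem_powersetCard.1 (hsub hs)).1
  have hvs : ∀ s ∈ 𝒞, v ∉ s := fun s hs hx => hvS (hsubS s hs hx)
  have hinj : ∀ 𝒳 : Finset (Finset (Fin (y + 1))), (∀ s ∈ 𝒳, v ∉ s) →
      Set.InjOn (fun s : Finset (Fin (y + 1)) => insert v s) (𝒳 : Set (Finset (Fin (y + 1)))) := by
    intro 𝒳 h𝒳 s hs t ht hst
    have h1 := h𝒳 s (mem_coe.1 hs)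
    have h2 := h𝒳 t (mem_coe.1 ht)
    have h3 : (insert v s).erase v = (insert v t).erase v := by
      simp only at hst
      rw [hst]
    rwa [erase_insert h1, erase_insert h2] at h3
  have hdisj : ∀ (j : ℕ) (𝒳 : Finset (Finset (Fin (y + 1)))),
      Disjoint (powersetCard j S) (𝒳.image (fun s => insert v s)) := by
    intro j 𝒳
    rw [Finset.disjoint_left]
    intro s hs hs2
    rw [mem_image] at hs2
    obtain ⟨t, _, rfl⟩ := hs2
    exact hvS ((mem_powersetCard.1 hs).1 (mem_insert_self v t))
  obtain ⟨F, hF⟩ : ∃ F, F = powersetCard (r + 1) S ∪ 𝒞.image (fun s => insert v s) := ⟨_, rfl⟩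
  have hFcard : F.card = y.choose (r + 1) + m := by
    rw [hF, card_union_of_disjoint (hdisj _ _), card_powersetCard, hScard,
      card_image_of_injOn (hinj _ hvs), hcard]
  have hFinit : Colex.IsInitSeg F (r + 1) := by
    refine ⟨?_, ?_⟩
    · intro s hs
      rw [mem_coe, hF, mem_union] at hs
      rcases hs with hs | hs
      · exact (mem_powersetCard.1 hs).2
      · obtain ⟨t, ht, rfl⟩ := mem_image.1 hs
        rw [card_insert_of_notMem (hvs t ht), h𝒞.1 (mem_coe.2 ht)]
    · rintro s t hs ⟨hlt, hct⟩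
      rw [hF, mem_union] at hs ⊢
      rcases hs with hs | hs
      · left
        rw [mem_powersetCard] at hs ⊢
        refine ⟨fun x hx => ?_, hct⟩
        rw [hS, mem_seg]
        refine lt_of_colex_lt (fun z hz => ?_) hlt x hx
        have := hs.1 hz
        rwa [hS, mem_seg] at this
      · obtain ⟨s', hs', rfl⟩ := mem_image.1 hs
        by_cases hvt : v ∈ t
        · right
          rw [Colex.toColex_lt_toColex_iff_exists_forall_lt] at hlt
          obtain ⟨a, ha, hat, hb⟩ := hlt
          have hane : a ≠ v := fun h => hat (h ▸ hvt)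
          have ha' : a ∈ s' := (mem_insert.1 ha).resolve_left hane
          rw [mem_image]
          refine ⟨t.erase v, ?_, insert_erase hvt⟩
          apply h𝒞.2 hs'
          refine ⟨?_, ?_⟩
          · rw [Colex.toColex_lt_toColex_iff_exists_forall_lt]
            refine ⟨a, ha', fun h => hat (mem_of_mem_erase h), ?_⟩
            intro b hb1 hb2
            rw [mem_erase] at hb1
            apply hb b hb1.2
            rw [mem_insert]
            rintro (h | h)
            · exact hb1.1 h
            · exact hb2 h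
          · rw [card_erase_of_mem hvt, hct]
            rfl
        · left
          rw [mem_powersetCard]
          exact ⟨fun x hx => hmemS x fun h => hvt (h ▸ hx), hct⟩
  have hshadow : ∂ F = powersetCard r S ∪ (∂ 𝒞).image (fun s => insert v s) := by
    ext t
    rw [mem_union]
    constructor
    · intro ht
      obtain ⟨s, hs, a, ha, rfl⟩ := mem_shadow_iff.1 ht
      rw [hF, mem_union] at hs
      rcases hs with hs | hs
      · left
        rw [mem_powersetCard] at hs ⊢
        refine ⟨(erase_subset _ _).trans hs.1, ?_⟩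
        rw [card_erase_of_mem ha, hs.2]; rfl
      · obtain ⟨s', hs', rfl⟩ := mem_image.1 hs
        by_cases hav : a = v
        · left
          subst hav
          rw [erase_insert (hvs s' hs')]
          exact hsub hs'
        · right
          rw [mem_image]
          have ha' : a ∈ s' := (mem_insert.1 ha).resolve_left hav
          refine ⟨s'.erase a, erase_mem_shadow hs' ha', ?_⟩
          rw [erase_insert_of_ne (Ne.symm hav)]
    · rintro (ht | ht)
      · rw [mem_powersetCard] at ht
        by_cases hne : ∃ a ∈ S, a ∉ t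
        · obtain ⟨a, haS, hat⟩ := hne
          refine mem_shadow_iff_insert_mem.2 ⟨a, hat, ?_⟩
          rw [hF, mem_union]
          left
          rw [mem_powersetCard]
          refine ⟨insert_subset haS ht.1, ?_⟩
          rw [card_insert_of_notMem hat, ht.2]
        · push Not at hne
          have hSt : S = t := Subset.antisymm hne ht.1
          have hry : r = y := by rw [← ht.2, ← hSt, hScard]
          have hm1 : 1 ≤ m := by
            rcases h1 with h1 | h1
            · exact h1
            · omega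
          have h5 : 𝒞 = powersetCard r S := by
            refine eq_of_subset_of_card_le hsub ?_
            rw [hpc, hcard, hry, Nat.choose_self]
            exact hm1
          refine mem_shadow_iff_insert_mem.2 ⟨v, fun h => hvS (ht.1 h), ?_⟩
          rw [hF, mem_union]
          right
          rw [mem_image]
          exact ⟨t, by rw [h5, mem_powersetCard]; exact ht, rfl⟩
      · obtain ⟨u, hu, rfl⟩ := mem_image.1 ht
        obtain ⟨s', hs', a, ha, rfl⟩ := mem_shadow_iff.1 hu
        have hav : a ≠ v := fun h => hvs s' hs' (h ▸ ha)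
        refine mem_shadow_iff.2 ⟨insert v s', ?_, a, mem_insert_of_mem ha, ?_⟩
        · rw [hF, mem_union]
          right
          exact mem_image_of_mem _ hs'
        · rw [erase_insert_of_ne (Ne.symm hav)]
  have hvsh : ∀ s ∈ ∂ 𝒞, v ∉ s := by
    intro s hs hvs'
    obtain ⟨s', hs', a, ha, rfl⟩ := mem_shadow_iff.1 hs
    exact hvs s' hs' (mem_of_mem_erase hvs')
  have e1 := initSeg_shadow hFinit
  have e2 := initSeg_shadow h𝒞
  rw [hFcard, hshadow, card_union_of_disjoint (hdisj _ _), hpc,
    card_image_of_injOn (hinj _ hvsh), e2, hcard] at e1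
  exact e1.symm

/-- computable form of the Kruskal-Katona function on an `n`-element ground set -/
def kk : ℕ → ℕ → ℕ → ℕ
  | 0, _, _ => 0
  | _ + 1, 0, _ => 0
  | n + 1, r + 1, m =>
    if m ≤ n.choose (r + 1) then kk n (r + 1) m else n.choose r + kk n r (m - n.choose (r + 1))

lemma Fm_eq_kk : ∀ (n r m : ℕ), m ≤ n.choose r → Fm r m = kk n r m := by
  intro n
  induction n with
  | zero =>
    intro r m hm
    cases r with
    | zero => rw [Fm_zero]; rfl
    | succ r =>
      rw [Nat.choose_zero_succ] at hm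
      have : m = 0 := by omega
      subst this
      rw [Fm_nil]; rfl
  | succ n ih =>
    intro r m hm
    cases r with
    | zero => rw [Fm_zero]; rfl
    | succ r =>
      unfold kk
      split_ifs with h
      · exact ih _ _ h
      · rw [Nat.choose_succ_succ'] at hm
        rw [← ih r (m - n.choose (r + 1)) (by omega), ← Fm_rec n r _ (by omega) (by omega)]
        congr 1
        omega

end Pool.Agent.Q130.FAC
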