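import Mathlib
import Pool.Agent.Q130.FAC.KK

set_option autoImplicit false

/-!
Numerical inequalities for the Kruskal-Katona function.
-/

namespace Pool.Agent.Q130.FAC

open Finset Pool.Agent.TH393.Lk

/-- hockey stick estimate -/
lemma hockey (i s : ℕ) : ∀ j : ℕ, j * (i + s).choose i ≤ (s + j + i).choose (i + 1) := by
  intro j
  induction j with
  | zero => simp
  | succ j ih =>
    have e : s + (j + 1) + i = (s + j + i) + 1 := by ring
    rw [e, Nat.choose_succ_succ']
    have h1 : (i + s).choose i ≤ (s + j + i).choose i := Nat.choose_le_choose _ (by omega)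
    calc (j + 1) * (i + s).choose i = (i + s).choose i + j * (i + s).choose i := by ring
      _ ≤ _ := add_le_add h1 ih

lemma choose_mul_sub (n i : ℕ) : (i + 1) * n.choose (i + 1) = (n - i) * n.choose i := by
  have := Nat.choose_succ_right_eq n i
  rw [mul_comm, this, mul_comm]

/-- the increment estimate -/
lemma incr (q n i : ℕ) : q * n.choose i ≤ (i + 1) * n.choose (i + 1) + (q + i).choose (i + 1) := by
  rw [choose_mul_sub]
  rcases Nat.lt_or_ge n i with h | h
  · rw [Nat.choose_eq_zero_of_lt h]; simp
  · obtain ⟨s, rfl⟩ := Nat.exists_eq_add_of_le h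
    rw [Nat.add_sub_cancel_left]
    rcases Nat.lt_or_ge q s with h2 | h2
    · have : q * (i + s).choose i ≤ s * (i + s).choose i := Nat.mul_le_mul_right _ h2.le
      omega
    · obtain ⟨j, rfl⟩ := Nat.exists_eq_add_of_le h2
      have := hockey i s j
      rw [add_mul]
      omega

/-- tangent upper bound -/
lemma kk_upper (q : ℕ) : ∀ n i m : ℕ, q * kk n i m + 1 ≤ i * m + (q + i).choose i := by
  intro n
  induction n with
  | zero =>
    intro i m
    have : 1 ≤ (q + i).choose i := Nat.choose_pos (by omega)
    have e : kk 0 i m = 0 := rfl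
    rw [e]; omega
  | succ n ih =>
    intro i m
    cases i with
    | zero =>
      have e : kk (n + 1) 0 m = 0 := rfl
      rw [e]; simp
    | succ i =>
      unfold kk
      split_ifs with h
      · exact ih _ _
      · have h1 := ih i (m - n.choose (i + 1))
        have h2 := incr q n i
        obtain ⟨m', hm'⟩ : ∃ m', m = n.choose (i + 1) + m' := ⟨m - n.choose (i + 1), by omega⟩
        rw [hm', Nat.add_sub_cancel_left] at h1 ⊢
        have e : q + (i + 1) = (q + i) + 1 := by ring
        rw [e, Nat.choose_succ_succ']
        have e2 : (i + 1) * (n.choose (i + 1) + m') = (i + 1) * n.choose (i + 1) + i * m' + m' := by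
          ring
        rw [e2, mul_add]
        omega

/-- refined tangent upper bound with an exact top term -/
lemma kk_upper' (q i top : ℕ) (htop : ∀ y : ℕ, q * y.choose i ≤ (i + 1) * y.choose (i + 1) + top) :
    ∀ n m : ℕ, q * kk n (i + 1) m + 1 ≤ (i + 1) * m + top + (q + i).choose i := by
  intro n
  induction n with
  | zero =>
    intro m
    have : 1 ≤ (q + i).choose i := Nat.choose_pos (by omega)
    have e : kk 0 (i + 1) m = 0 := rfl
    rw [e]; omega
  | succ n ih =>
    intro m
    unfold kk
    split_ifs with h
    · exact ih _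
    · have h1 := kk_upper q n i (m - n.choose (i + 1))
      have h2 := htop n
      obtain ⟨m', hm'⟩ : ∃ m', m = n.choose (i + 1) + m' := ⟨m - n.choose (i + 1), by omega⟩
      rw [hm', Nat.add_sub_cancel_left] at h1 ⊢
      have e2 : (i + 1) * (n.choose (i + 1) + m') = (i + 1) * n.choose (i + 1) + i * m' + m' := by
        ring
      rw [e2, mul_add]
      omega

lemma le_choose_big (i m : ℕ) (hi : 1 ≤ i) : m ≤ (m + i).choose i := by
  have h2 : (m + i).choose i = (m + i).choose m := by rw [Nat.choose_symm_add]
  rw [h2]
  calc m ≤ m + 1 := Nat.le_succ m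
    _ = (m + 1).choose m := by simp
    _ ≤ (m + i).choose m := Nat.choose_mono m (by omega)

lemma Fm_upper (q i m : ℕ) : q * Fm i m + 1 ≤ i * m + (q + i).choose i := by
  rcases Nat.eq_zero_or_pos i with rfl | hi
  · rw [Fm_zero]; simp
  · rw [Fm_eq_kk (m + i) i m (le_choose_big i m hi)]
    exact kk_upper q _ _ _

lemma Fm_upper' (q i top m : ℕ) (htop : ∀ y : ℕ, q * y.choose i ≤ (i + 1) * y.choose (i + 1) + top) :
    q * Fm (i + 1) m + 1 ≤ (i + 1) * m + top + (q + i).choose i := by
  rw [Fm_eq_kk (m + (i + 1)) (i + 1) m (le_choose_big _ _ (by omega))]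
  exact kk_upper' q i top htop _ _

/-- local LYM -/
lemma kk_lym : ∀ n r m : ℕ, m ≤ n.choose r → r * m ≤ (n + 1 - r) * kk n r m := by
  intro n
  induction n with
  | zero =>
    intro r m hm
    cases r with
    | zero => simp
    | succ r =>
      rw [Nat.choose_zero_succ] at hm
      have : m = 0 := by omega
      subst this
      simp
  | succ n ih =>
    intro r m hm
    cases r with
    | zero => simp
    | succ r =>
      unfold kk
      split_ifs with h
      · refine (ih _ _ h).trans ?_
        exact Nat.mul_le_mul_right _ (by omega)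
      · rw [Nat.choose_succ_succ'] at hm
        obtain ⟨m', hm'⟩ : ∃ m', m = n.choose (r + 1) + m' := ⟨m - n.choose (r + 1), by omega⟩
        have h1 := ih r m' (by omega)
        rw [hm', Nat.add_sub_cancel_left]
        have h2 : r ≤ n := by
          by_contra h3
          push Not at h3
          rw [Nat.choose_eq_zero_of_lt h3, Nat.choose_eq_zero_of_lt (by omega)] at hm
          omega
        have e : n + 1 + 1 - (r + 1) = n - r + 1 := by omega
        have e' : n + 1 - r = n - r + 1 := by omega
        rw [e' ] at h1
        have e3 : (n - r + 1) * (n.choose r + kk n r m') =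
            (n - r) * n.choose r + n.choose r + (n - r + 1) * kk n r m' := by ring
        rw [e, e3, ← choose_mul_sub]
        have e2 : (r + 1) * (n.choose (r + 1) + m') = (r + 1) * n.choose (r + 1) + r * m' + m' := by
          ring
        rw [e2]
        have h3 : m' ≤ n.choose r := by omega
        omega

lemma Fm_lym (n r m : ℕ) (hm : m ≤ n.choose r) : r * m ≤ (n + 1 - r) * Fm r m := by
  rw [Fm_eq_kk n r m hm]
  exact kk_lym n r m hm

end Pool.Agent.Q130.FAC
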