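import Mathlib
import Pool.Agent.Q130.FAC.Num

set_option autoImplicit false

/-!
The inequality `K_k(2a - K_{k+1}(a)) < a`.
-/

namespace Pool.Agent.Q130.FAC

open Finset Pool.Agent.TH393.Lk

lemma mainstep (i p a' F : ℕ) (ha' : a' ≤ (i + p + 1).choose (i + 1)) (h1 : 1 ≤ a')
    (hup : ∀ m, (p + 1) * Fm (i + 1) m ≤ (i + 1) * m + F)
    (hF : F + 2 * (i + 1) * (i + p + 1).choose (i + 2) <
      (p + 1) * (i + p + 1).choose (i + 2) + (i + 1) * (i + p + 1).choose (i + 1)) :
    Fm (i + 1) (2 * ((i + p + 1).choose (i + 2) + a') -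
      Fm (i + 2) ((i + p + 1).choose (i + 2) + a')) < (i + p + 1).choose (i + 2) + a' := by
  have hrec := Fm_rec (i + p + 1) (i + 1) a' ha' (Or.inl h1)
  have hlym := Fm_lym (i + p + 1) (i + 1) a' ha'
  have e1 : i + p + 1 + 1 - (i + 1) = p + 1 := by omega
  rw [e1] at hlym
  have e2 : i + 1 + 1 = i + 2 := rfl
  rw [e2] at hrec
  rw [hrec]
  obtain ⟨C1, hC1⟩ : ∃ C1, C1 = (i + p + 1).choose (i + 2) := ⟨_, rfl⟩
  obtain ⟨Cx, hCx⟩ : ∃ Cx, Cx = (i + p + 1).choose (i + 1) := ⟨_, rfl⟩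
  obtain ⟨Ka, hKa⟩ : ∃ Ka, Ka = Fm (i + 1) a' := ⟨_, rfl⟩
  rw [← hC1, ← hCx] at hF
  rw [← hC1, ← hCx, ← hKa]
  rw [← hKa] at hlym
  rcases Nat.lt_or_ge (Cx + Ka) (2 * (C1 + a')) with h2 | h2
  · obtain ⟨h, hh⟩ : ∃ h, h = 2 * (C1 + a') - (Cx + Ka) := ⟨_, rfl⟩
    have hh' : h + Cx + Ka = 2 * (C1 + a') := by omega
    rw [← hh]
    have hu := hup h
    obtain ⟨Kh, hKh⟩ : ∃ Kh, Kh = Fm (i + 1) h := ⟨_, rfl⟩
    rw [← hKh] at hu ⊢
    -- key: 2 k a' ≤ q a' + k Ka
    have key : 2 * (i + 1) * a' ≤ (p + 1) * a' + (i + 1) * Ka := by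
      have hz : (p + 1) * (2 * (i + 1) * a') ≤ (p + 1) * ((p + 1) * a' + (i + 1) * Ka) := by
        zify at hlym ⊢
        nlinarith [mul_nonneg (sq_nonneg ((p : ℤ) - i)) (Int.natCast_nonneg a'),
          mul_le_mul_of_nonneg_left hlym (by positivity : (0:ℤ) ≤ (i:ℤ) + 1)]
      exact Nat.le_of_mul_le_mul_left hz (by omega)
    have hlt : (p + 1) * Kh < (p + 1) * (C1 + a') := by
      zify at hu hF key hh' ⊢
      have hh2 : (h : ℤ) = 2 * (C1 + a') - Cx - Ka := by linarith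
      rw [hh2] at hu
      nlinarith
    exact Nat.lt_of_mul_lt_mul_left hlt
  · have : 2 * (C1 + a') - (Cx + Ka) = 0 := by omega
    rw [this, Fm_nil]
    omega

lemma rel1 (i p : ℕ) : (i + 1) * (i + p + 1).choose (i + 1) = (p + 1) * (i + p + 1).choose i := by
  rw [choose_mul_sub]
  congr 1
  omega

lemma rel2 (i p : ℕ) : (i + 2) * (i + p + 1).choose (i + 2) = p * (i + p + 1).choose (i + 1) := by
  have := choose_mul_sub (i + p + 1) (i + 1)
  have e : i + p + 1 - (i + 1) = p := by omega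
  rw [e] at this
  exact this

/-- reduction of the numerical condition to a bound on `F` in terms of `N` -/
lemma cond_of (i p F : ℕ)
    (h : ((i : ℤ) + 1) * (i + 2) * F <
      (p + 1) * (i + p + 1).choose i * (((i : ℤ) - p) ^ 2 + 3 * (i + 1) - (p + 1))) :
    F + 2 * (i + 1) * (i + p + 1).choose (i + 2) <
      (p + 1) * (i + p + 1).choose (i + 2) + (i + 1) * (i + p + 1).choose (i + 1) := by
  have r1 := rel1 i p
  have r2 := rel2 i p
  obtain ⟨C1, hC1⟩ : ∃ C1, C1 = (i + p + 1).choose (i + 2) := ⟨_, rfl⟩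
  obtain ⟨Cx, hCx⟩ : ∃ Cx, Cx = (i + p + 1).choose (i + 1) := ⟨_, rfl⟩
  obtain ⟨N, hN⟩ : ∃ N, N = (i + p + 1).choose i := ⟨_, rfl⟩
  rw [← hCx, ← hN] at r1
  rw [← hC1, ← hCx] at r2
  rw [← hC1, ← hCx]
  rw [← hN] at h
  zify at r1 r2 ⊢
  have hpos : (0 : ℤ) < ((i : ℤ) + 1) * (i + 2) := by positivity
  have e1 : ((i : ℤ) + 1) * (i + 2) * C1 = p * (p + 1) * N := by
    linear_combination ((i : ℤ) + 1) * r2 + (p : ℤ) * r1
  have e2 : ((i : ℤ) + 1) * (i + 2) * Cx = (i + 2) * (p + 1) * N := by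
    linear_combination ((i : ℤ) + 2) * r1
  have hmul : ((i : ℤ) + 1) * (i + 2) * (F + 2 * (i + 1) * C1) <
      ((i : ℤ) + 1) * (i + 2) * ((p + 1) * C1 + (i + 1) * Cx) := by
    have e3 : ((i : ℤ) + 1) * (i + 2) * (F + 2 * (i + 1) * C1) =
        ((i : ℤ) + 1) * (i + 2) * F + 2 * (i + 1) * (p * (p + 1) * N) := by rw [← e1]; ring
    have e4 : ((i : ℤ) + 1) * (i + 2) * ((p + 1) * C1 + (i + 1) * Cx) =
        (p + 1) * (p * (p + 1) * N) + (i + 1) * ((i + 2) * (p + 1) * N) := by rw [← e1, ← e2]; ring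
    rw [e3, e4]
    nlinarith
  exact lt_of_mul_lt_mul_left hmul hpos.le

/-- case A: the lossy bound -/
lemma condA (i p : ℕ)
    (h : ((i : ℤ) + 2) * ((i + 1) + (p + 1)) ≤ (p + 1) * (((i : ℤ) - p) ^ 2 + 3 * (i + 1) - (p + 1))) :
    ∃ F : ℕ, (∀ m, (p + 1) * Fm (i + 1) m ≤ (i + 1) * m + F) ∧
      F + 2 * (i + 1) * (i + p + 1).choose (i + 2) <
      (p + 1) * (i + p + 1).choose (i + 2) + (i + 1) * (i + p + 1).choose (i + 1) := by
  have e0 : p + 1 + (i + 1) = (i + p + 1) + 1 := by ring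
  have hch : (p + 1 + (i + 1)).choose (i + 1) = (i + p + 1).choose i + (i + p + 1).choose (i + 1) := by
    rw [e0, Nat.choose_succ_succ']
  have hpos : 1 ≤ (p + 1 + (i + 1)).choose (i + 1) := Nat.choose_pos (by omega)
  refine ⟨(p + 1 + (i + 1)).choose (i + 1) - 1, ?_, ?_⟩
  · intro m
    have := Fm_upper (p + 1) (i + 1) m
    omega
  · apply cond_of
    have r1 := rel1 i p
    obtain ⟨Cx, hCx⟩ : ∃ Cx, Cx = (i + p + 1).choose (i + 1) := ⟨_, rfl⟩
    obtain ⟨N, hN⟩ : ∃ N, N = (i + p + 1).choose i := ⟨_, rfl⟩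
    rw [hch, ← hN, ← hCx]
    rw [← hCx, ← hN] at r1
    rw [hch, ← hN, ← hCx] at hpos
    have e : ((N + Cx - 1 : ℕ) : ℤ) = N + Cx - 1 := by
      rw [Nat.cast_sub hpos]; push_cast; ring
    rw [e]
    zify at r1
    have hN0 : (0 : ℤ) ≤ N := Int.natCast_nonneg N
    have hm := mul_le_mul_of_nonneg_left h hN0
    nlinarith

lemma dec (i j d : ℕ) (h : j + 1 + d ≤ j * (i + 1)) :
    (j + 1) * (i + d).choose i ≤ j * (i + d + 1).choose i := by
  have h1 := Nat.choose_mul_succ_eq (i + d) i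
  have e : i + d + 1 - i = d + 1 := by omega
  rw [e] at h1
  obtain ⟨A, hA⟩ : ∃ A, A = (i + d).choose i := ⟨_, rfl⟩
  obtain ⟨B, hB⟩ : ∃ B, B = (i + d + 1).choose i := ⟨_, rfl⟩
  rw [← hA, ← hB] at h1 ⊢
  have h2 : (j + 1) * (d + 1) ≤ j * (i + d + 1) := by nlinarith
  have h3 : (i + d + 1) * ((j + 1) * A) ≤ (i + d + 1) * (j * B) := by
    calc (i + d + 1) * ((j + 1) * A) = (j + 1) * (A * (i + d + 1)) := by ring
      _ = ((j + 1) * (d + 1)) * B := by rw [h1]; ring
      _ ≤ (j * (i + d + 1)) * B := Nat.mul_le_mul_right _ h2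
      _ = _ := by ring
  exact Nat.le_of_mul_le_mul_left h3 (by omega)

lemma top1 (i p : ℕ) (h : p ≤ i) : ∀ j, j ≤ p → (j + 1) * (i + (p - j)).choose i ≤ (i + p).choose i := by
  intro j
  induction j with
  | zero => intro _; simp
  | succ j ih =>
    intro hj
    have h1 := ih (by omega)
    have h2 := dec i (j + 1) (p - (j + 1)) (by nlinarith [Nat.sub_add_cancel hj])
    have e : i + (p - (j + 1)) + 1 = i + (p - j) := by omega
    rw [e] at h2
    exact h2.trans h1

lemma top2 (i p : ℕ) (h : p = i + 1) :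
    ∀ j, j ≤ p → (j + 1) * (i + (p - j)).choose i ≤ 2 * (i + (p - 1)).choose i := by
  intro j
  induction j with
  | zero =>
    intro _
    subst h
    have h1 := Nat.choose_mul_succ_eq (i + i) i
    have e : i + i + 1 - i = i + 1 := by omega
    rw [e] at h1
    have e2 : i + (i + 1 - 0) = i + i + 1 := by omega
    have e3 : i + (i + 1 - 1) = i + i := by omega
    rw [e2, e3]
    have h2 : (i + 1) * ((0 + 1) * (i + i + 1).choose i) ≤ (i + 1) * (2 * (i + i).choose i) := by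
      calc (i + 1) * ((0 + 1) * (i + i + 1).choose i) = (i + i + 1).choose i * (i + 1) := by ring
        _ = (i + i).choose i * (i + i + 1) := h1.symm
        _ ≤ (i + i).choose i * (2 * (i + 1)) := Nat.mul_le_mul_left _ (by omega)
        _ = _ := by ring
    exact Nat.le_of_mul_le_mul_left h2 (by omega)
  | succ j ih =>
    intro hj
    rcases Nat.eq_zero_or_pos j with rfl | hj0
    · exact le_rfl
    · have h1 := ih (by omega)
      have h2 := dec i (j + 1) (p - (j + 1)) (by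
        have : j + 1 + 1 + (p - (j + 1)) = i + 2 := by omega
        rw [this]
        nlinarith)
      have e : i + (p - (j + 1)) + 1 = i + (p - j) := by omega
      rw [e] at h2
      exact h2.trans h1

lemma htop_of (i p top : ℕ) (h : ∀ j, j ≤ p → (j + 1) * (i + (p - j)).choose i ≤ top) :
    ∀ y : ℕ, (p + 1) * y.choose i ≤ (i + 1) * y.choose (i + 1) + top := by
  intro y
  rw [choose_mul_sub]
  rcases Nat.lt_or_ge y i with h1 | h1
  · rw [Nat.choose_eq_zero_of_lt h1]; simp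
  · obtain ⟨d, rfl⟩ := Nat.exists_eq_add_of_le h1
    rw [Nat.add_sub_cancel_left]
    rcases Nat.lt_or_ge p d with h2 | h2
    · have : (p + 1) * (i + d).choose i ≤ d * (i + d).choose i := Nat.mul_le_mul_right _ h2
      omega
    · have h3 := h (p - d) (by omega)
      have e : p - (p - d) = d := by omega
      rw [e] at h3
      have e2 : (p + 1) * (i + d).choose i = d * (i + d).choose i + (p - d + 1) * (i + d).choose i := by
        rw [← add_mul]; congr 1; omega
      omega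

lemma condB (i p top : ℕ)
    (htop : ∀ j, j ≤ p → (j + 1) * (i + (p - j)).choose i ≤ top)
    (h : ((i : ℤ) + 1) * (i + 2) * (top + (i + p + 1).choose i - 1) <
      (p + 1) * (i + p + 1).choose i * (((i : ℤ) - p) ^ 2 + 3 * (i + 1) - (p + 1))) :
    ∃ F : ℕ, (∀ m, (p + 1) * Fm (i + 1) m ≤ (i + 1) * m + F) ∧
      F + 2 * (i + 1) * (i + p + 1).choose (i + 2) <
      (p + 1) * (i + p + 1).choose (i + 2) + (i + 1) * (i + p + 1).choose (i + 1) := by
  have e0 : p + 1 + i = i + p + 1 := by ring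
  have hpos : 1 ≤ (i + p + 1).choose i := Nat.choose_pos (by omega)
  refine ⟨top + (i + p + 1).choose i - 1, ?_, ?_⟩
  · intro m
    have := Fm_upper' (p + 1) i top m (htop_of i p top htop)
    rw [e0] at this
    omega
  · apply cond_of
    have e : ((top + (i + p + 1).choose i - 1 : ℕ) : ℤ) = top + (i + p + 1).choose i - 1 := by
      rw [Nat.cast_sub (by omega)]; push_cast; ring
    rw [e]
    exact h

lemma caseB0 (i : ℕ) (hi : 3 ≤ i) :
    ∃ F : ℕ, (∀ m, (i + 1) * Fm (i + 1) m ≤ (i + 1) * m + F) ∧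
      F + 2 * (i + 1) * (i + i + 1).choose (i + 2) <
      (i + 1) * (i + i + 1).choose (i + 2) + (i + 1) * (i + i + 1).choose (i + 1) := by
  apply condB i i _ (top1 i i le_rfl)
  have h1 := Nat.choose_mul_succ_eq (i + i) i
  have e : i + i + 1 - i = i + 1 := by omega
  rw [e] at h1
  obtain ⟨T, hT⟩ : ∃ T, T = (i + i).choose i := ⟨_, rfl⟩
  obtain ⟨N, hN⟩ : ∃ N, N = (i + i + 1).choose i := ⟨_, rfl⟩
  rw [← hT, ← hN] at h1 ⊢
  zify at h1
  have hN0 : (0 : ℤ) ≤ N := Int.natCast_nonneg N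
  have hi' : (3 : ℤ) ≤ i := by exact_mod_cast hi
  have h2 : (0 : ℤ) ≤ N * ((i : ℤ) * i - 2 * i - 2) :=
    mul_nonneg hN0 (by nlinarith)
  -- multiply by 2i+1
  have h3 : ((2 : ℤ) * i + 1) * (((i : ℤ) + 2) * (T + N - 1)) < (2 * i + 1) * (2 * (i + 1) * N) := by
    have e1 : ((2 : ℤ) * i + 1) * (((i : ℤ) + 2) * (T + N - 1)) =
        (i + 2) * ((T * (i + i + 1)) + (2 * i + 1) * N - (2 * i + 1)) := by ring
    rw [e1, h1]
    nlinarith
  have h4 : ((i : ℤ) + 2) * (T + N - 1) < 2 * (i + 1) * N :=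
    lt_of_mul_lt_mul_left h3 (by positivity)
  have h5 : ((i : ℤ) + 1) * (((i : ℤ) + 2) * (T + N - 1)) < (i + 1) * (2 * (i + 1) * N) :=
    mul_lt_mul_of_pos_left h4 (by positivity)
  nlinarith

lemma caseB1 (i : ℕ) (hi : 1 ≤ i) :
    ∃ F : ℕ, (∀ m, (i + 1 + 1) * Fm (i + 1) m ≤ (i + 1) * m + F) ∧
      F + 2 * (i + 1) * (i + (i + 1) + 1).choose (i + 2) <
      (i + 1 + 1) * (i + (i + 1) + 1).choose (i + 2) + (i + 1) * (i + (i + 1) + 1).choose (i + 1) := by
  apply condB i (i + 1) _ (top2 i (i + 1) rfl)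
  have h1 := Nat.choose_mul_succ_eq (i + i) i
  have e : i + i + 1 - i = i + 1 := by omega
  rw [e] at h1
  have h2 := Nat.choose_mul_succ_eq (i + i + 1) i
  have e' : i + i + 1 + 1 - i = i + 2 := by omega
  rw [e'] at h2
  have e3 : i + (i + 1 - 1) = i + i := by omega
  have e4 : i + (i + 1) + 1 = i + i + 1 + 1 := by omega
  rw [e3, e4]
  obtain ⟨T, hT⟩ : ∃ T, T = (i + i).choose i := ⟨_, rfl⟩
  obtain ⟨M, hM⟩ : ∃ M, M = (i + i + 1).choose i := ⟨_, rfl⟩
  obtain ⟨N, hN⟩ : ∃ N, N = (i + i + 1 + 1).choose i := ⟨_, rfl⟩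
  rw [← hT, ← hM] at h1
  rw [← hM, ← hN] at h2
  rw [← hT, ← hN]
  have hTN : 2 * T ≤ N := by
    have h3 : (i + 1) * (i + 2) * (2 * T) ≤ (i + 1) * (i + 2) * N := by
      have h4 : (i + 1) * (i + 2) * N = T * (i + i + 1) * (i + i + 1 + 1) := by
        calc (i + 1) * (i + 2) * N = (i + 1) * (N * (i + 2)) := by ring
          _ = (i + 1) * (M * (i + i + 1 + 1)) := by rw [h2]
          _ = (M * (i + 1)) * (i + i + 1 + 1) := by ring
          _ = _ := by rw [h1]
      rw [h4]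
      have h5 : (i + 1) * (i + 2) * 2 ≤ (i + i + 1) * (i + i + 1 + 1) := by nlinarith
      calc (i + 1) * (i + 2) * (2 * T) = ((i + 1) * (i + 2) * 2) * T := by ring
        _ ≤ ((i + i + 1) * (i + i + 1 + 1)) * T := Nat.mul_le_mul_right _ h5
        _ = _ := by ring
    exact Nat.le_of_mul_le_mul_left h3 (by positivity)
  push_cast
  zify at hTN
  have e5 : ((i : ℤ) - (i + 1)) ^ 2 + 3 * (i + 1) - (i + 1 + 1) = 2 * (i + 1) := by ring
  rw [e5]
  have h6 : (2 * (T : ℤ) + N - 1) < 2 * N := by linarith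
  have h7 : ((i : ℤ) + 1) * (i + 2) * (2 * (T : ℤ) + N - 1) < ((i : ℤ) + 1) * (i + 2) * (2 * N) :=
    mul_lt_mul_of_pos_left h6 (by positivity)
  nlinarith

lemma caseBm (p : ℕ) (hp : 2 ≤ p) :
    ∃ F : ℕ, (∀ m, (p + 1) * Fm (p + 1 + 1) m ≤ (p + 1 + 1) * m + F) ∧
      F + 2 * (p + 1 + 1) * (p + 1 + p + 1).choose (p + 1 + 2) <
      (p + 1) * (p + 1 + p + 1).choose (p + 1 + 2) + (p + 1 + 1) * (p + 1 + p + 1).choose (p + 1 + 1) := by
  apply condB (p + 1) p _ (top1 (p + 1) p (by omega))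
  have h1 := Nat.choose_mul_succ_eq (p + 1 + p) (p + 1)
  have e : p + 1 + p + 1 - (p + 1) = p + 1 := by omega
  rw [e] at h1
  obtain ⟨T, hT⟩ : ∃ T, T = (p + 1 + p).choose (p + 1) := ⟨_, rfl⟩
  obtain ⟨N, hN⟩ : ∃ N, N = (p + 1 + p + 1).choose (p + 1) := ⟨_, rfl⟩
  rw [← hT, ← hN] at h1 ⊢
  have hNT : N = 2 * T := by
    have h3 : (p + 1) * N = (p + 1) * (2 * T) := by
      calc (p + 1) * N = N * (p + 1) := by ring
        _ = T * (p + 1 + p + 1) := h1.symm
        _ = _ := by ring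
    exact Nat.eq_of_mul_eq_mul_left (by omega) h3
  rw [hNT]
  push_cast
  have e5 : ((p : ℤ) + 1 - p) ^ 2 + 3 * (p + 1 + 1) - (p + 1) = 2 * (p + 3) := by ring
  rw [e5]
  have hT0 : (0 : ℤ) ≤ T := Int.natCast_nonneg T
  have hp' : (2 : ℤ) ≤ p := by exact_mod_cast hp
  have h6 : ((p : ℤ) + 2) * ((T : ℤ) + 2 * T - 1) < (p + 1) * (2 * T) * 2 := by nlinarith
  have h7 : ((p : ℤ) + 3) * (((p : ℤ) + 2) * ((T : ℤ) + 2 * T - 1)) <
      ((p : ℤ) + 3) * ((p + 1) * (2 * T) * 2) := mul_lt_mul_of_pos_left h6 (by positivity)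
  nlinarith

lemma exists_x (k a : ℕ) (ha : 1 ≤ a) :
    ∃ x, k ≤ x ∧ x.choose (k + 1) < a ∧ a ≤ (x + 1).choose (k + 1) := by
  have hex : ∃ x, a ≤ (x + 1).choose (k + 1) := ⟨a + k, by
    have := le_choose_big (k + 1) a (by omega)
    exact this⟩
  classical
  have h1 := Nat.find_spec hex
  have h2 := fun m hm => Nat.find_min hex (m := m) hm
  obtain ⟨x, hx⟩ : ∃ x, x = Nat.find hex := ⟨_, rfl⟩
  rw [← hx] at h1
  refine ⟨x, ?_, ?_, h1⟩
  · by_contra h3
    rw [Nat.choose_eq_zero_of_lt (by omega)] at h1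
    omega
  · rcases Nat.eq_zero_or_pos x with h3 | h3
    · rw [h3, Nat.choose_zero_succ]; exact ha
    · have := h2 (x - 1) (by omega)
      have e : x - 1 + 1 = x := by omega
      rw [e] at this
      omega

lemma small2 : ∀ a < 5, 1 ≤ a → Fm 2 (2 * a - Fm 3 a) < a := by
  intro a ha h1
  have h2 : a ≤ Nat.choose 4 3 := by
    have : Nat.choose 4 3 = 4 := by decide
    omega
  rw [Fm_eq_kk 4 3 a h2, Fm_eq_kk 5 2 _ (by
    have : Nat.choose 5 2 = 10 := by decide
    omega)]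
  revert h1
  revert ha
  revert h2
  revert a
  have : ∀ a < 5, 1 ≤ a → kk 5 2 (2 * a - kk 4 3 a) < a := by decide
  exact fun a _ h1 h2 => this a h1 h2

lemma small3 : ∀ a < 16, 1 ≤ a → Fm 3 (2 * a - Fm 4 a) < a := by
  intro a ha h1
  have h2 : a ≤ Nat.choose 6 4 := by
    have : Nat.choose 6 4 = 15 := by decide
    omega
  rw [Fm_eq_kk 6 4 a h2, Fm_eq_kk 7 3 _ (by
    have : Nat.choose 7 3 = 35 := by decide
    omega)]
  have : ∀ a < 16, 1 ≤ a → kk 7 3 (2 * a - kk 6 4 a) < a := by decide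
  exact this a ha h1

lemma small4 : ∀ a < 7, 1 ≤ a → Fm 4 (2 * a - Fm 5 a) < a := by
  intro a ha h1
  have h2 : a ≤ Nat.choose 6 5 := by
    have : Nat.choose 6 5 = 6 := by decide
    omega
  rw [Fm_eq_kk 6 5 a h2, Fm_eq_kk 6 4 _ (by
    have : Nat.choose 6 4 = 15 := by decide
    omega)]
  have : ∀ a < 7, 1 ≤ a → kk 6 4 (2 * a - kk 6 5 a) < a := by decide
  exact this a ha h1

lemma Fm_one_le (m : ℕ) : Fm 1 m ≤ 1 := by
  have h := Fm_upper' (m + 1) 0 (m + 1) m (by intro y; simp)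
  simp only [Nat.zero_add, one_mul, Nat.choose_zero_right] at h
  by_contra h2
  push Not at h2
  nlinarith

/-- the main numerical inequality -/
theorem Tprime (k a : ℕ) (hk : 1 ≤ k) (ha : 1 ≤ a) : Fm k (2 * a - Fm (k + 1) a) < a := by
  rcases Nat.lt_or_ge k 2 with hk2 | hk2
  · have hk1 : k = 1 := by omega
    subst hk1
    rcases Nat.lt_or_ge a 2 with h2 | h2
    · have ha1 : a = 1 := by omega
      subst ha1
      have h3 : 2 ≤ Fm (1 + 1) 1 := Fm_one_ge 2
      have h4 : 2 * 1 - Fm (1 + 1) 1 = 0 := by omega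
      rw [h4, Fm_nil]
      omega
    · have := Fm_one_le (2 * a - Fm (1 + 1) a)
      omega
  · obtain ⟨x, hx1, hx2, hx3⟩ := exists_x k a ha
    obtain ⟨i, rfl⟩ : ∃ i, k = i + 1 := ⟨k - 1, by omega⟩
    obtain ⟨p, rfl⟩ : ∃ p, x = i + p + 1 := ⟨x - (i + 1), by omega⟩
    have hi : 1 ≤ i := by omega
    rw [Nat.choose_succ_succ'] at hx3
    obtain ⟨a', ha'⟩ : ∃ a', a = (i + p + 1).choose (i + 2) + a' :=
      ⟨a - (i + p + 1).choose (i + 2), by
        have : (i + p + 1).choose (i + 1 + 1) < a := hx2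
        have e : i + 1 + 1 = i + 2 := rfl
        rw [e] at this
        omega⟩
    have e12 : i + 1 + 1 = i + 2 := rfl
    rw [e12] at hx2 hx3 ⊢
    have ha'1 : 1 ≤ a' := by omega
    have ha'2 : a' ≤ (i + p + 1).choose (i + 1) := by omega
    -- trivial case p = 0
    rcases Nat.eq_zero_or_pos p with hp | hp
    · subst hp
      have h3 : (i + 0 + 1).choose (i + 2) = 0 := Nat.choose_eq_zero_of_lt (by omega)
      have h4 : (i + 0 + 1).choose (i + 1) = 1 := by simp
      have ha1 : a = 1 := by omega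
      subst ha1
      have h5 := Fm_one_ge (i + 2)
      have h6 : 2 * 1 - Fm (i + 2) 1 = 0 := by omega
      rw [h6, Fm_nil]
      omega
    · -- finite cases
      by_cases hfin : (i = 1 ∧ p = 1) ∨ (i = 2 ∧ p = 1) ∨ (i = 2 ∧ p = 2) ∨ (i = 3 ∧ p = 1)
      · rcases hfin with ⟨rfl, rfl⟩ | ⟨rfl, rfl⟩ | ⟨rfl, rfl⟩ | ⟨rfl, rfl⟩
        · have h7 : (1 + 1 + 1).choose (1 + 1) = 3 := by decide
          have h8 : (1 + 1 + 1).choose (1 + 2) = 1 := by decide
          exact small2 a (by omega) ha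
        · have h7 : (2 + 1 + 1).choose (2 + 1) = 4 := by decide
          have h8 : (2 + 1 + 1).choose (2 + 2) = 1 := by decide
          exact small3 a (by omega) ha
        · have h7 : (2 + 2 + 1).choose (2 + 1) = 10 := by decide
          have h8 : (2 + 2 + 1).choose (2 + 2) = 5 := by decide
          exact small3 a (by omega) ha
        · have h7 : (3 + 1 + 1).choose (3 + 1) = 5 := by decide
          have h8 : (3 + 1 + 1).choose (3 + 2) = 1 := by decide
          exact small4 a (by omega) ha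
      · have hex : ∃ F : ℕ, (∀ m, (p + 1) * Fm (i + 1) m ≤ (i + 1) * m + F) ∧
            F + 2 * (i + 1) * (i + p + 1).choose (i + 2) <
            (p + 1) * (i + p + 1).choose (i + 2) + (i + 1) * (i + p + 1).choose (i + 1) := by
          rcases Nat.lt_or_ge p i with h1 | h1
          · -- p < i
            rcases Nat.lt_or_ge (p + 1) i with h2 | h2
            · -- p ≤ i - 2
              apply condA
              obtain ⟨t, rfl⟩ : ∃ t, i = p + 2 + t := ⟨i - (p + 2), by omega⟩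
              push_cast
              have hp' : (1 : ℤ) ≤ p := by exact_mod_cast hp
              have ht' : (0 : ℤ) ≤ t := Int.natCast_nonneg t
              rcases Nat.eq_zero_or_pos t with rfl | ht
              · have hp2 : 2 ≤ p := by omega
                have hp2' : (2 : ℤ) ≤ p := by exact_mod_cast hp2
                push_cast
                nlinarith
              · have ht1 : (1 : ℤ) ≤ t := by exact_mod_cast ht
                obtain ⟨P, hP⟩ : ∃ P : ℤ, (p : ℤ) = P + 1 := ⟨p - 1, by ring⟩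
                obtain ⟨U, hU⟩ : ∃ U : ℤ, (t : ℤ) = U + 1 := ⟨t - 1, by ring⟩
                have hP0 : 0 ≤ P := by linarith
                have hU0 : 0 ≤ U := by linarith
                rw [hP, hU]
                have : 0 ≤ P * U := mul_nonneg hP0 hU0
                have : 0 ≤ P * U * U := mul_nonneg this hU0
                nlinarith [mul_nonneg hU0 hU0]
            · -- p = i - 1
              have : i = p + 1 := by omega
              subst this
              exact caseBm p (by omega)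
          · rcases Nat.eq_or_lt_of_le h1 with h2 | h2
            · subst h2
              exact caseB0 i (by omega)
            · rcases Nat.eq_or_lt_of_le (Nat.succ_le_of_lt h2) with h3 | h3
              · have : p = i + 1 := by omega
                subst this
                exact caseB1 i hi
              · apply condA
                obtain ⟨t, rfl⟩ : ∃ t, p = i + 2 + t := ⟨p - (i + 2), by omega⟩
                push_cast
                have hi' : (1 : ℤ) ≤ i := by exact_mod_cast hi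
                have ht' : (0 : ℤ) ≤ t := Int.natCast_nonneg t
                have : (0 : ℤ) ≤ (i : ℤ) * t := by positivity
                have : (0 : ℤ) ≤ (i : ℤ) * t * t := by positivity
                have : (0 : ℤ) ≤ (t : ℤ) * t := by positivity
                have : (0 : ℤ) ≤ (t : ℤ) * t * t := by positivity
                nlinarith
        obtain ⟨F, hF1, hF2⟩ := hex
        rw [ha']
        exact mainstep i p a' F ha'2 ha'1 hF1 hF2

end Pool.Agent.Q130.FAC
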