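import Mathlib
import Pool.Agent.Q130.FAC.TP

set_option autoImplicit false

/-!
Antichains: the top part of an antichain, the antichain condition, duality.
-/

namespace Pool.Agent.Q130.FAC

open Finset Pool.Agent.TH393.Lk
open scoped FinsetFamily

variable {n : ℕ}

/-- number of members of size at least `s` -/
def cntT (G : Finset (Finset (Fin n))) (s : ℕ) : ℕ := (G.filter fun F => s ≤ F.card).card

/-- total excess over `s` of the members of size at least `s` -/
def excE (G : Finset (Finset (Fin n))) (s : ℕ) : ℕ := ∑ F ∈ G.filter (fun F => s ≤ F.card), (F.card - s)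

lemma filter_succ (G : Finset (Finset (Fin n))) (s : ℕ) :
    G.filter (fun F => s ≤ F.card) = (G # s) ∪ G.filter (fun F => s + 1 ≤ F.card) := by
  ext F
  simp only [mem_union, mem_filter, mem_slice]
  constructor
  · rintro ⟨h1, h2⟩
    rcases Nat.eq_or_lt_of_le h2 with h3 | h3
    · exact Or.inl ⟨h1, h3.symm⟩
    · exact Or.inr ⟨h1, h3⟩
  · rintro (⟨h1, h2⟩ | ⟨h1, h2⟩)
    · exact ⟨h1, h2.ge⟩
    · exact ⟨h1, by omega⟩

lemma filter_succ_disj (G : Finset (Finset (Fin n))) (s : ℕ) :
    Disjoint (G # s) (G.filter (fun F => s + 1 ≤ F.card)) := by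
  rw [disjoint_left]
  intro F h1 h2
  have h3 := (mem_slice.1 h1).2
  have h4 := (mem_filter.1 h2).2
  omega

lemma cntT_succ (G : Finset (Finset (Fin n))) (s : ℕ) : cntT G s = (G # s).card + cntT G (s + 1) := by
  unfold cntT
  rw [filter_succ, card_union_of_disjoint (filter_succ_disj G s)]

lemma excE_succ (G : Finset (Finset (Fin n))) (s : ℕ) : excE G s = excE G (s + 1) + cntT G (s + 1) := by
  unfold excE cntT
  rw [filter_succ, sum_union (filter_succ_disj G s)]
  have h1 : ∑ F ∈ G # s, (F.card - s) = 0 := by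
    apply sum_eq_zero
    intro F hF
    rw [(mem_slice.1 hF).2]; simp
  rw [h1, zero_add, card_eq_sum_ones, ← sum_add_distrib]
  apply sum_congr rfl
  intro F hF
  have := (mem_filter.1 hF).2
  omega

lemma big_s (G : Finset (Finset (Fin n))) (s : ℕ) (hs : n + 1 ≤ s) : cntT G s = 0 ∧ excE G s = 0 := by
  have h : G.filter (fun F => s ≤ F.card) = ∅ := by
    rw [filter_eq_empty_iff]
    intro F _ h2
    have := card_le_univ F
    rw [Fintype.card_fin] at this
    omega
  unfold cntT excE
  rw [h]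
  simp

/-- numerical step used several times -/
lemma step_ineq (k T E x : ℕ) (hk : 1 ≤ k) (h : T + Fm (k + 1) E ≤ x + E) :
    Fm k (T + E) ≤ Fm k x + E ∧ (1 ≤ E → Fm k (T + E) < Fm k x + E) := by
  have h1 : T + E ≤ x + (2 * E - Fm (k + 1) E) := by omega
  have h2 := (Fm_mono k h1).trans (Fm_add k _ _)
  rcases Nat.eq_zero_or_pos E with h0 | h0
  · subst h0
    simp only [Nat.mul_zero, Nat.zero_sub, Fm_nil] at h2
    exact ⟨by omega, by omega⟩
  · have h3 := Tprime k E hk h0
    exact ⟨by omega, fun _ => by omega⟩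

/-- lower bound for the number of `s`-sets below an antichain -/
lemma lemmaA (G : Finset (Finset (Fin n))) (hG : IsAntichain (· ⊆ ·) (G : Set (Finset (Fin n)))) :
    ∀ d s : ℕ, n + 1 ≤ s + d → cntT G s + Fm (s + 1) (excE G s) ≤ (falling s G).card + excE G s := by
  intro d
  induction d with
  | zero =>
    intro s hs
    obtain ⟨h1, h2⟩ := big_s G s (by omega)
    rw [h1, h2, Fm_nil]
    omega
  | succ d ih =>
    intro s hs
    have h1 := ih (s + 1) (by omega)
    have h2 : (falling s G).card = (G # s).card + (∂ (falling (s + 1) G)).card := by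
      rw [← slice_union_shadow_falling_succ,
        card_union_of_disjoint (IsAntichain.disjoint_slice_shadow_falling hG)]
    have h3 : Fm (s + 1) (falling (s + 1) G).card ≤ (∂ (falling (s + 1) G)).card :=
      Fm_le_fin _ fun A hA => sized_falling (s + 1) G hA
    have h4 := (step_ineq (s + 1) (cntT G (s + 1)) (excE G (s + 1)) _ (by omega) h1).1
    rw [h2, cntT_succ, excE_succ, add_comm (excE G (s + 1)) (cntT G (s + 1))]
    omega

lemma lemmaA' (G : Finset (Finset (Fin n))) (hG : IsAntichain (· ⊆ ·) (G : Set (Finset (Fin n))))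
    (s : ℕ) : cntT G s + Fm (s + 1) (excE G s) ≤ (falling s G).card + excE G s :=
  lemmaA G hG (n + 1) s (by omega)

lemma compls_antichain (G : Finset (Finset (Fin n)))
    (hG : IsAntichain (· ⊆ ·) (G : Set (Finset (Fin n)))) :
    IsAntichain (· ⊆ ·) (Gᶜˢ : Set (Finset (Fin n))) := by
  intro A hA B hB hne hAB
  rw [mem_coe, mem_compls] at hA hB
  exact hG (mem_coe.2 hB) (mem_coe.2 hA) (fun h => hne (compl_injective h).symm)
    (by simpa using compl_subset_compl.2 hAB)

/-- the antichain condition -/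
lemma cross (G : Finset (Finset (Fin n))) (hG : IsAntichain (· ⊆ ·) (G : Set (Finset (Fin n))))
    (k q : ℕ) (hk : 1 ≤ k) (hkq : k + q = n + 1) :
    Fm k (falling k G).card + (falling q Gᶜˢ).card ≤ n.choose q := by
  have h3 : Fm k (falling k G).card ≤ (∂ (falling k G)).card :=
    Fm_le_fin _ fun A hA => sized_falling k G hA
  have hdisj : Disjoint (∂ (falling k G)) (falling q Gᶜˢ)ᶜˢ := by
    rw [disjoint_left]
    intro u hu hu'
    rw [mem_compls, mem_falling] at hu'
    obtain ⟨⟨F', hF', hsub⟩, hc⟩ := hu'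
    rw [mem_compls] at hF'
    obtain ⟨s, hs, a, ha, rfl⟩ := mem_shadow_iff.1 hu
    obtain ⟨⟨F, hF, hsF⟩, hcs⟩ := mem_falling.1 hs
    have h4 : F'ᶜ ⊆ s.erase a := by
      have := compl_subset_compl.2 hsub
      simpa using this
    have h5 : F'ᶜ ⊆ F := h4.trans ((erase_subset _ _).trans hsF)
    have h6 : F'ᶜ = F := by
      by_contra hne
      exact hG (mem_coe.2 hF') (mem_coe.2 hF) hne h5
    have h7 : a ∈ F := hsF ha
    rw [← h6] at h7
    exact notMem_erase a s (h4 h7)
  have hsub : ∂ (falling k G) ∪ (falling q Gᶜˢ)ᶜˢ ⊆ powersetCard (k - 1) univ := by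
    intro u hu
    rw [mem_powersetCard]
    refine ⟨subset_univ _, ?_⟩
    rcases mem_union.1 hu with hu | hu
    · obtain ⟨s, hs, a, ha, rfl⟩ := mem_shadow_iff.1 hu
      rw [card_erase_of_mem ha, (mem_falling.1 hs).2]
    · rw [mem_compls, mem_falling] at hu
      have := hu.2
      rw [card_compl, Fintype.card_fin] at this
      have h8 := card_le_univ u
      rw [Fintype.card_fin] at h8
      omega
  have h9 := card_le_card hsub
  rw [card_union_of_disjoint hdisj, card_compls, card_powersetCard, card_univ, Fintype.card_fin] at h9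
  have h10 : n.choose (k - 1) = n.choose q := by
    rw [← Nat.choose_symm (by omega : q ≤ n)]
    congr 1
    omega
  rw [h10] at h9
  omega

/-- duality between the two levels -/
lemma dual (k q M : ℕ) (hk : 1 ≤ k) (hq : 1 ≤ q) (hkq : k + q = n + 1) (hM : M ≤ n.choose k) :
    Fm q (n.choose q - Fm k M) + M ≤ n.choose k := by
  obtain ⟨𝒞, h𝒞, hcard⟩ := exists_initSeg n k M (by
    rw [card_powersetCard, card_univ, Fintype.card_fin]; exact hM)
  have h1 := initSeg_shadow h𝒞
  rw [hcard] at h1
  obtain ⟨ℬ, hℬ⟩ : ∃ ℬ, ℬ = powersetCard (k - 1) univ \ ∂ 𝒞 := ⟨_, rfl⟩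
  have hch : n.choose (k - 1) = n.choose q := by
    rw [← Nat.choose_symm (by omega : q ≤ n)]
    congr 1
    omega
  have hsubsh : ∂ 𝒞 ⊆ powersetCard (k - 1) univ := by
    intro u hu
    obtain ⟨s, hs, a, ha, rfl⟩ := mem_shadow_iff.1 hu
    rw [mem_powersetCard]
    refine ⟨subset_univ _, ?_⟩
    rw [card_erase_of_mem ha, h𝒞.1 (mem_coe.2 hs)]
  have hBcard : ℬ.card = n.choose q - Fm k M := by
    rw [hℬ, card_sdiff_of_subset hsubsh, card_powersetCard, card_univ, Fintype.card_fin, h1, hch]
  have hBs : ∀ A ∈ ℬᶜˢ, A.card = q := by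
    intro A hA
    rw [mem_compls, hℬ, mem_sdiff, mem_powersetCard, card_compl, Fintype.card_fin] at hA
    have h8 := card_le_univ A
    rw [Fintype.card_fin] at h8
    omega
  have h2 : Fm q ℬᶜˢ.card ≤ (∂ ℬᶜˢ).card := Fm_le_fin _ hBs
  rw [card_compls, hBcard] at h2
  have hdisj : Disjoint (∂ ℬᶜˢ) 𝒞ᶜˢ := by
    rw [disjoint_left]
    intro u hu hu'
    rw [mem_compls] at hu'
    obtain ⟨a, ha, hins⟩ := mem_shadow_iff_insert_mem.1 hu
    rw [mem_compls, hℬ, mem_sdiff] at hins
    apply hins.2
    have : (insert a u)ᶜ = uᶜ.erase a := by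
      rw [compl_insert]
    rw [this]
    exact erase_mem_shadow hu' (mem_compl.2 ha)
  have hsub : ∂ ℬᶜˢ ∪ 𝒞ᶜˢ ⊆ powersetCard (q - 1) univ := by
    intro u hu
    rw [mem_powersetCard]
    refine ⟨subset_univ _, ?_⟩
    rcases mem_union.1 hu with hu | hu
    · obtain ⟨s, hs, a, ha, rfl⟩ := mem_shadow_iff.1 hu
      rw [card_erase_of_mem ha, hBs _ hs]
    · rw [mem_compls] at hu
      have := h𝒞.1 (mem_coe.2 hu)
      rw [card_compl, Fintype.card_fin] at this
      have h8 := card_le_univ u
      rw [Fintype.card_fin] at h8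
      omega
  have h9 := card_le_card hsub
  rw [card_union_of_disjoint hdisj, card_compls, hcard, card_powersetCard, card_univ,
    Fintype.card_fin] at h9
  have h10 : n.choose (q - 1) = n.choose k := by
    rw [← Nat.choose_symm (by omega : k ≤ n)]
    congr 1
    omega
  rw [h10] at h9
  omega

/-- the complement of the shadow of an initial segment, complemented, is an initial segment -/
lemma init_compls {k q : ℕ} (hk : 1 ≤ k) (hkq : k + q = n + 1)
    {𝒜 : Finset (Finset (Fin n))} (h𝒜 : Colex.IsInitSeg 𝒜 k) :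
    Colex.IsInitSeg (powersetCard (k - 1) univ \ ∂ 𝒜)ᶜˢ q := by
  refine ⟨?_, ?_⟩
  · intro A hA
    rw [mem_coe, mem_compls, mem_sdiff, mem_powersetCard, card_compl, Fintype.card_fin] at hA
    have h8 := card_le_univ A
    rw [Fintype.card_fin] at h8
    omega
  · rintro s t hs ⟨hts, ht⟩
    rw [mem_compls, mem_sdiff, mem_powersetCard] at hs ⊢
    refine ⟨⟨subset_univ _, ?_⟩, ?_⟩
    · rw [card_compl, Fintype.card_fin, ht]; omega
    · intro hmem
      apply hs.2
      have hsh := h𝒜.shadow
      refine hsh.2 hmem ⟨?_, hs.1.2⟩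
      rw [Colex.toColex_lt_toColex_iff_exists_forall_lt] at hts ⊢
      obtain ⟨a, ha, hat, hb⟩ := hts
      refine ⟨a, mem_compl.2 hat, ?_, ?_⟩
      · rw [mem_compl, not_not]; exact ha
      · intro b hb1 hb2
        rw [mem_compl] at hb1 hb2
        rw [not_not] at hb2
        exact hb b hb2 hb1

end Pool.Agent.Q130.FAC
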