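import Mathlib
import Pool.Agent.Q130.FAC.Comb

set_option autoImplicit false

/-!
The final numerical argument.
-/

namespace Pool.Agent.Q130.FAC

open Finset Pool.Agent.TH393.Lk
open scoped FinsetFamily

lemma half (k q m m' T E D E' x y A B : ℕ) (hk : 1 ≤ k) (hq : 1 ≤ q)
    (h1 : T + E = m + E') (h2 : D + E' = m' + E)
    (h3 : T + Fm (k + 1) E ≤ x + E) (h4 : D + Fm (q + 1) E' ≤ y + E')
    (h5 : Fm k x + y ≤ B)
    (h7 : Fm k m + m' = B) (h8 : Fm q m' + m = A)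
    (h9 : ∀ M ≤ A, Fm q (B - Fm k M) + M ≤ A)
    (hE : 1 ≤ E) : 1 ≤ E' ∧ A < m + E' := by
  have s1 := (step_ineq k T E x hk h3).2 hE
  rw [h1] at s1
  have s2 : Fm k m ≤ Fm k (m + E') := Fm_mono k (by omega)
  have hE' : 1 ≤ E' := by
    by_contra h0
    have h00 : E' = 0 := by omega
    subst h00
    rw [Fm_nil] at h4
    omega
  refine ⟨hE', ?_⟩
  by_contra hA
  push Not at hA
  have h10 := h9 (m + E') hA
  have h11 : D + E' ≤ y + (2 * E' - Fm (q + 1) E') := by omega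
  have h12 := Tprime q E' hq hE'
  obtain ⟨h', hh'⟩ : ∃ h', h' = 2 * E' - Fm (q + 1) E' := ⟨_, rfl⟩
  rw [← hh'] at h11 h12
  have h13 : m' ≤ (B - Fm k (m + E')) + h' := by omega
  have h14 := (Fm_mono q h13).trans (Fm_add q _ _)
  omega

/-- the polynomial inequality -/
lemma poly_ineq (k s : ℝ) (hk : 2 ≤ k) (hs : s = 0 ∨ s = 1 ∨ s = 2 ∨ s = 3 ∨ 4 ≤ s) :
    (2 * k + s) * (k + s - 1) * k * (k - 1) ≤
      k ^ 2 * (k - 1) * (s ^ 2 - s + 2 * k) + (2 * k + s) * (k + s - 1) * (s ^ 2 + 3 * s + 2 * k) := by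
  obtain ⟨u, hu⟩ : ∃ u : ℝ, k = u + 2 := ⟨k - 2, by ring⟩
  have hu0 : 0 ≤ u := by linarith
  subst hu
  rcases hs with rfl | rfl | rfl | rfl | hs
  · nlinarith [mul_nonneg hu0 hu0, mul_nonneg (mul_nonneg hu0 hu0) hu0]
  · nlinarith [mul_nonneg hu0 hu0, mul_nonneg (mul_nonneg hu0 hu0) hu0]
  · nlinarith [mul_nonneg hu0 hu0, mul_nonneg (mul_nonneg hu0 hu0) hu0]
  · nlinarith [mul_nonneg hu0 hu0, mul_nonneg (mul_nonneg hu0 hu0) hu0]
  · obtain ⟨t, ht⟩ : ∃ t : ℝ, s = t + 4 := ⟨s - 4, by ring⟩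
    have ht0 : 0 ≤ t := by linarith
    subst ht
    have h1 := mul_nonneg hu0 ht0
    have h2 := mul_nonneg h1 hu0
    have h3 := mul_nonneg h1 ht0
    have h4 := mul_nonneg h2 ht0
    have h5 := mul_nonneg h2 hu0
    have h6 := mul_nonneg h3 ht0
    have h7 := mul_nonneg h4 hu0
    have h8 := mul_nonneg h4 ht0
    have h9 := mul_nonneg hu0 hu0
    have h10 := mul_nonneg h9 hu0
    have h11 := mul_nonneg ht0 ht0
    have h12 := mul_nonneg h11 ht0
    have h13 := mul_nonneg h12 ht0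
    ring_nf
    ring_nf at h1 h2 h3 h4 h5 h6 h7 h8 h9 h10 h11 h12 h13
    nlinarith

lemma lymcase (k q : ℕ) (hk : 2 ≤ k) (hkq : k ≤ q) (A B m m' E E' : ℝ)
    (hA : 0 < A) (hB : 0 < B) (hAB : k * A = q * B) (hm : 0 ≤ m) (hm' : 0 ≤ m')
    (hmA : m ≤ A) (hmB : m' ≤ B) (hE' : A < m + E') (hE : B < m' + E)
    (hlym : (m + E' - E) / A + E * ((k + 1) / (q - 1) - 1) / A + (m' + E - E') / B +
      E' * ((q + 1) / (k - 1) - 1) / B ≤ 1)
    (hup : q * (B - m') < k * m + (q + k) / k * B) : False := by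
  obtain ⟨s, rfl⟩ : ∃ s, q = k + s := ⟨q - k, by omega⟩
  have hs : (s : ℝ) = 0 ∨ (s : ℝ) = 1 ∨ (s : ℝ) = 2 ∨ (s : ℝ) = 3 ∨ 4 ≤ (s : ℝ) := by
    have : s = 0 ∨ s = 1 ∨ s = 2 ∨ s = 3 ∨ 4 ≤ s := by omega
    rcases this with h | h | h | h | h
    · left; rw [h]; simp
    · right; left; rw [h]; simp
    · right; right; left; rw [h]; simp
    · right; right; right; left; rw [h]; simp
    · right; right; right; right; exact_mod_cast h
  have hk2 : (2 : ℝ) ≤ k := by exact_mod_cast hk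
  have hs0 : (0 : ℝ) ≤ s := Nat.cast_nonneg s
  have hpoly := poly_ineq k s hk2 hs
  push_cast at hAB hlym hup
  obtain ⟨K, hK⟩ : ∃ K : ℝ, K = k := ⟨_, rfl⟩
  obtain ⟨S, hS⟩ : ∃ S : ℝ, S = s := ⟨_, rfl⟩
  rw [← hK, ← hS] at hpoly hAB hlym hup
  rw [← hK] at hk2
  rw [← hS] at hs0
  have hq1 : 0 < K + S - 1 := by linarith
  have hq : 0 < K + S := by linarith
  have hk1 : 0 < K - 1 := by linarith
  have hk0 : 0 < K := by linarith
  obtain ⟨a, ha⟩ : ∃ a, a = m / A := ⟨_, rfl⟩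
  obtain ⟨b, hb⟩ : ∃ b, b = m' / B := ⟨_, rfl⟩
  obtain ⟨e1, he1⟩ : ∃ e1, e1 = E / B := ⟨_, rfl⟩
  obtain ⟨e2, he2⟩ : ∃ e2, e2 = E' / A := ⟨_, rfl⟩
  have hmE : m = a * A := by rw [ha]; field_simp
  have hm'E : m' = b * B := by rw [hb]; field_simp
  have hEE : E = e1 * B := by rw [he1]; field_simp
  have hE'E : E' = e2 * A := by rw [he2]; field_simp
  have ha0 : 0 ≤ a := by rw [ha]; positivity
  have hb0 : 0 ≤ b := by rw [hb]; positivity
  have hBA : B = K * A / (K + S) := by rw [hAB]; field_simp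
  -- the two lower bounds
  have l2 : 1 - a < e2 := by
    have : 1 < a + e2 := by rw [ha, he2, ← add_div]; exact (one_lt_div hA).2 hE'
    linarith only [this]
  have l1 : 1 - b < e1 := by
    have : 1 < b + e1 := by rw [hb, he1, ← add_div]; exact (one_lt_div hB).2 hE
    linarith only [this]
  have a1 : 0 ≤ 1 - a := by
    have : a ≤ 1 := by rw [ha]; exact (div_le_one hA).2 hmA
    linarith only [this]
  have b1 : 0 ≤ 1 - b := by
    have : b ≤ 1 := by rw [hb]; exact (div_le_one hB).2 hmB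
    linarith only [this]
  -- gammas
  obtain ⟨gT, hgT⟩ : ∃ gT, gT = (S ^ 2 - S + 2 * K) / ((K + S) * (K + S - 1)) := ⟨_, rfl⟩
  obtain ⟨gD, hgD⟩ : ∃ gD, gD = (S ^ 2 + 3 * S + 2 * K) / (K * (K - 1)) := ⟨_, rfl⟩
  have hPT : 0 < S ^ 2 - S + 2 * K := by
    have h1 : 0 ≤ (S - 1 / 2) ^ 2 := sq_nonneg _
    have h2 : S ^ 2 - S + 2 * K = (S - 1 / 2) ^ 2 + (2 * K - 1 / 4) := by ring
    rw [h2]
    linarith
  have hgT0 : 0 < gT := by rw [hgT]; positivity
  have hgTD : gT ≤ gD := by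
    rw [hgT, hgD]
    apply div_le_div₀ (by positivity) (by linarith) (by positivity)
    exact mul_le_mul (by linarith) (by linarith) hk1.le hq.le
  have hgD0 : 0 < gD := lt_of_lt_of_le hgT0 hgTD
  have hl : a + b + e1 * gT + e2 * gD ≤ 1 := by
    have e : (m + E' - E) / A + E * ((K + 1) / (K + S - 1) - 1) / A + (m' + E - E') / B +
      E' * ((K + S + 1) / (K - 1) - 1) / B = a + b + e1 * gT + e2 * gD := by
      rw [hmE, hm'E, hEE, hE'E, hgT, hgD, hBA]
      field_simp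
      ring
    rw [e] at hlym
    exact hlym
  have hκ : 1 - a - b < (2 * K + S) / (K * (K + S)) := by
    rw [hmE, hm'E] at hup
    rw [lt_div_iff₀ (by positivity)]
    have h1 : (K + S + K) / K * B = (2 * K + S) * B / K := by ring
    rw [h1] at hup
    have h2 : K * (a * A) = a * ((K + S) * B) := by rw [← hAB]; ring
    rw [h2] at hup
    have h3 : (K + S) * (B - b * B) * K < (a * ((K + S) * B)) * K + (2 * K + S) * B := by
      have := mul_lt_mul_of_pos_right hup hk0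
      have h4 : (a * ((K + S) * B) + (2 * K + S) * B / K) * K =
        (a * ((K + S) * B)) * K + (2 * K + S) * B := by field_simp
      rw [h4] at this
      exact this
    have h5 : B * ((1 - a - b) * (K * (K + S))) < B * (2 * K + S) := by
      have e5 : B * ((1 - a - b) * (K * (K + S))) =
        (K + S) * (B - b * B) * K - (a * ((K + S) * B)) * K := by ring
      rw [e5]
      linarith only [h3]
    exact lt_of_mul_lt_mul_left h5 hB.le
  obtain ⟨κ, hκd⟩ : ∃ κ, κ = 1 - a - b := ⟨_, rfl⟩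
  rw [← hκd] at hκ
  have hκ1 : gT + κ * gD ≤ κ := by
    have h1 : (1 - b) * gT ≤ e1 * gT := mul_le_mul_of_nonneg_right l1.le hgT0.le
    have h2 : (1 - a) * gD ≤ e2 * gD := mul_le_mul_of_nonneg_right l2.le hgD0.le
    have h3 : b * gT ≤ b * gD := mul_le_mul_of_nonneg_left hgTD hb0
    have e5 : gT + κ * gD = (1 - b) * gT + (1 - a) * gD - (b * gD - b * gT) := by rw [hκd]; ring
    rw [e5, hκd]
    linarith only [h1, h2, h3, hl]
  have hκ0 : 0 < κ := by
    have h1 : 0 ≤ (1 - b) * gT := mul_nonneg b1 hgT0.le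
    have h2 : 0 ≤ (1 - a) * gD := mul_nonneg a1 hgD0.le
    have h3 : (1 - b) * gT ≤ e1 * gT := mul_le_mul_of_nonneg_right l1.le hgT0.le
    have h4 : (1 - a) * gD ≤ e2 * gD := mul_le_mul_of_nonneg_right l2.le hgD0.le
    have h5 : 0 ≤ κ := by rw [hκd]; linarith only [h1, h2, h3, h4, hl]
    rcases h5.lt_or_eq with h6 | h6
    · exact h6
    · rw [← h6] at hκ1; linarith only [hκ1, hgT0]
  have hgD1 : 0 < 1 - gD := by
    by_contra h
    push Not at h
    have h1 : κ * (1 - gD) ≤ 0 := mul_nonpos_of_nonneg_of_nonpos hκ0.le h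
    have h2 : κ * (1 - gD) = κ - κ * gD := by ring
    linarith only [h1, h2, hκ1, hgT0]
  have hfin : gT < (2 * K + S) / (K * (K + S)) * (1 - gD) := by
    have h1 := mul_lt_mul_of_pos_right hκ hgD1
    have h2 : κ * (1 - gD) = κ - κ * gD := by ring
    linarith only [h1, h2, hκ1]
  have hcon : (2 * K + S) / (K * (K + S)) * (1 - gD) ≤ gT := by
    rw [hgT, hgD]
    have e1 : (2 * K + S) / (K * (K + S)) * (1 - (S ^ 2 + 3 * S + 2 * K) / (K * (K - 1))) =
      ((2 * K + S) * (K * (K - 1) - (S ^ 2 + 3 * S + 2 * K))) / (K * (K + S) * (K * (K - 1))) := by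
      field_simp
    rw [e1, div_le_div_iff₀ (by positivity) (by positivity)]
    have e2 : (2 * K + S) * (K * (K - 1) - (S ^ 2 + 3 * S + 2 * K)) * ((K + S) * (K + S - 1)) =
      (K + S) * ((2 * K + S) * (K + S - 1) * K * (K - 1) -
        (2 * K + S) * (K + S - 1) * (S ^ 2 + 3 * S + 2 * K)) := by ring
    have e3 : (S ^ 2 - S + 2 * K) * (K * (K + S) * (K * (K - 1))) =
      (K + S) * (K ^ 2 * (K - 1) * (S ^ 2 - S + 2 * K)) := by ring
    rw [e2, e3]
    apply mul_le_mul_of_nonneg_left _ hq.le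
    linarith
  linarith

end Pool.Agent.Q130.FAC
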