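import Mathlib
import Pool.Agent.Q130.FAC.Fin

set_option autoImplicit false

/-!
LYM with the convexity of the reciprocal binomial coefficients.
-/

namespace Pool.Agent.Q130.FAC

open Finset
open scoped FinsetFamily

lemma g_succ (n s : ℕ) (hs : s + 1 ≤ n) :
    ((n.choose (s + 1) : ℕ) : ℝ)⁻¹ = ((n.choose s : ℕ) : ℝ)⁻¹ * ((s + 1) / (n - s)) := by
  have h := Nat.choose_succ_right_eq n s
  have h1 : (0 : ℝ) < (n.choose s : ℕ) := by exact_mod_cast Nat.choose_pos (by omega)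
  have h2 : (0 : ℝ) < (n.choose (s + 1) : ℕ) := by exact_mod_cast Nat.choose_pos (by omega)
  have h3 : (0 : ℝ) < (n : ℝ) - s := by
    have : (s : ℝ) + 1 ≤ n := by exact_mod_cast hs
    linarith
  have h4 : ((n.choose (s + 1) : ℕ) : ℝ) * (s + 1) = (n.choose s : ℕ) * (n - s) := by
    have : (((n - s : ℕ)) : ℝ) = n - s := by rw [Nat.cast_sub (by omega)]
    rw [← this]
    exact_mod_cast h
  field_simp
  linarith

lemma conv2 (n s : ℕ) (hs : s + 2 ≤ n) :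
    2 * ((n.choose (s + 1) : ℕ) : ℝ)⁻¹ ≤ ((n.choose s : ℕ) : ℝ)⁻¹ + ((n.choose (s + 2) : ℕ) : ℝ)⁻¹ := by
  have e1 := g_succ n s (by omega)
  have e2 := g_succ n (s + 1) (by omega)
  have e : s + 1 + 1 = s + 2 := rfl
  rw [e] at e2
  obtain ⟨g0, hg0⟩ : ∃ g0, g0 = ((n.choose s : ℕ) : ℝ)⁻¹ := ⟨_, rfl⟩
  obtain ⟨g1, hg1⟩ : ∃ g1, g1 = ((n.choose (s + 1) : ℕ) : ℝ)⁻¹ := ⟨_, rfl⟩
  rw [← hg0, ← hg1] at e1
  rw [← hg1] at e2
  rw [← hg0, ← hg1, e2]
  obtain ⟨v, rfl⟩ : ∃ v, n = s + 2 + v := ⟨n - (s + 2), by omega⟩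
  push_cast at e1 ⊢
  have hg0' : 0 ≤ g0 := by rw [hg0]; positivity
  have hs0 : (0 : ℝ) ≤ s := Nat.cast_nonneg s
  have hv0 : (0 : ℝ) ≤ v := Nat.cast_nonneg v
  have e3 : (s : ℝ) + 2 + v - s = v + 2 := by ring
  have e4 : (s : ℝ) + 2 + v - (s + 1) = v + 1 := by ring
  rw [e3] at e1
  rw [e4, e1]
  have h5 : g0 + g0 * ((s + 1) / (v + 2)) * ((s + 1 + 1) / (v + 1)) - 2 * (g0 * ((s + 1) / (v + 2))) =
      g0 * ((((s : ℝ) - v) ^ 2 + s + v + 2) / ((v + 2) * (v + 1))) := by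
    field_simp
    ring
  have h6 : 0 ≤ g0 * ((((s : ℝ) - v) ^ 2 + s + v + 2) / ((v + 2) * (v + 1))) := by positivity
  linarith

lemma conv_inc (n k : ℕ) : ∀ j, k + j + 1 ≤ n →
    ((n.choose (k + 1) : ℕ) : ℝ)⁻¹ - ((n.choose k : ℕ) : ℝ)⁻¹ ≤
      ((n.choose (k + j + 1) : ℕ) : ℝ)⁻¹ - ((n.choose (k + j) : ℕ) : ℝ)⁻¹ := by
  intro j
  induction j with
  | zero => intro _; simp
  | succ j ih =>
    intro hj
    have h1 := ih (by omega)
    have h2 := conv2 n (k + j) (by omega)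
    have e1 : k + (j + 1) + 1 = k + j + 2 := by omega
    have e2 : k + (j + 1) = k + j + 1 := by omega
    rw [e1, e2]
    linarith

lemma conv (n k : ℕ) : ∀ j, k + j ≤ n →
    ((n.choose k : ℕ) : ℝ)⁻¹ + j * (((n.choose (k + 1) : ℕ) : ℝ)⁻¹ - ((n.choose k : ℕ) : ℝ)⁻¹) ≤
      ((n.choose (k + j) : ℕ) : ℝ)⁻¹ := by
  intro j
  induction j with
  | zero => intro _; simp
  | succ j ih =>
    intro hj
    have h1 := ih (by omega)
    have h2 := conv_inc n k j (by omega)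
    have e2 : k + (j + 1) = k + j + 1 := by omega
    rw [e2]
    push_cast
    linarith

variable {n : ℕ}

lemma top_lym (G : Finset (Finset (Fin n))) (k : ℕ) :
    (cntT G k : ℝ) * ((n.choose k : ℕ) : ℝ)⁻¹ +
      (excE G k : ℝ) * (((n.choose (k + 1) : ℕ) : ℝ)⁻¹ - ((n.choose k : ℕ) : ℝ)⁻¹) ≤
    ∑ F ∈ G.filter (fun F => k ≤ F.card), ((n.choose F.card : ℕ) : ℝ)⁻¹ := by
  unfold cntT excE
  rw [card_eq_sum_ones]
  push_cast
  rw [sum_mul, sum_mul, ← sum_add_distrib]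
  apply sum_le_sum
  intro F hF
  have h1 := (mem_filter.1 hF).2
  have h2 := card_le_univ F
  rw [Fintype.card_fin] at h2
  have h3 := conv n k (F.card - k) (by omega)
  have e : k + (F.card - k) = F.card := by omega
  rw [e] at h3
  linarith

lemma filter_compls (G : Finset (Finset (Fin n))) (k q : ℕ) (hkq : k + q = n + 1) :
    (Gᶜˢ).filter (fun F => q ≤ F.card) = (G.filter (fun F => ¬ k ≤ F.card))ᶜˢ := by
  ext F
  simp only [mem_filter, mem_compls]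
  have h := card_le_univ F
  rw [Fintype.card_fin] at h
  rw [card_compl, Fintype.card_fin]
  constructor
  · rintro ⟨h1, h2⟩; exact ⟨h1, by omega⟩
  · rintro ⟨h1, h2⟩; exact ⟨h1, by omega⟩

lemma sum_compls {β : Type} [AddCommMonoid β] (G : Finset (Finset (Fin n))) (f : Finset (Fin n) → β) :
    ∑ F ∈ Gᶜˢ, f F = ∑ F ∈ G, f Fᶜ := by
  rw [compls, sum_map]
  rfl

lemma split_card (G : Finset (Finset (Fin n))) (k q : ℕ) (hkq : k + q = n + 1) :
    cntT G k + cntT Gᶜˢ q = G.card := by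
  unfold cntT
  rw [filter_compls G k q hkq, card_compls]
  exact card_filter_add_card_filter_not _

lemma split_vol (G : Finset (Finset (Fin n))) (k q : ℕ) (hk : 1 ≤ k) (hkq : k + q = n + 1) :
    k * cntT G k + excE G k + (k - 1) * cntT Gᶜˢ q = ∑ F ∈ G, F.card + excE Gᶜˢ q := by
  have h1 : k * cntT G k + excE G k = ∑ F ∈ G.filter (fun F => k ≤ F.card), F.card := by
    unfold cntT excE
    rw [card_eq_sum_ones, mul_sum, ← sum_add_distrib]
    apply sum_congr rfl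
    intro F hF
    have := (mem_filter.1 hF).2
    omega
  have h2 : (k - 1) * cntT Gᶜˢ q = ∑ F ∈ G.filter (fun F => ¬ k ≤ F.card), F.card + excE Gᶜˢ q := by
    unfold cntT excE
    rw [filter_compls G k q hkq, card_compls, sum_compls, card_eq_sum_ones, mul_sum,
      ← sum_add_distrib]
    apply sum_congr rfl
    intro F hF
    have h3 := (mem_filter.1 hF).2
    have h4 := card_le_univ F
    rw [Fintype.card_fin] at h4
    rw [card_compl, Fintype.card_fin]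
    omega
  have h3 := sum_filter_add_sum_filter_not G (fun F => k ≤ F.card) (fun F => F.card)
  omega

/-- the LYM inequality in the form needed -/
lemma lym_form (G : Finset (Finset (Fin n))) (hG : IsAntichain (· ⊆ ·) (G : Set (Finset (Fin n))))
    (k q : ℕ) (hk : 2 ≤ k) (hq : 2 ≤ q) (hkq : k + q = n + 1) :
    (cntT G k : ℝ) / (n.choose k : ℕ) + (excE G k : ℝ) * ((k + 1) / (q - 1) - 1) / (n.choose k : ℕ) +
      (cntT Gᶜˢ q : ℝ) / (n.choose q : ℕ) +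
      (excE Gᶜˢ q : ℝ) * ((q + 1) / (k - 1) - 1) / (n.choose q : ℕ) ≤ 1 := by
  have h0 := lubell_yamamoto_meshalkin_inequality_sum_inv_choose (𝕜 := ℝ) hG
  rw [Fintype.card_fin] at h0
  rw [← sum_filter_add_sum_filter_not G (fun F => k ≤ F.card)] at h0
  have h1 := top_lym G k
  have h2 := top_lym Gᶜˢ q
  have h3 : ∑ F ∈ (Gᶜˢ).filter (fun F => q ≤ F.card), ((n.choose F.card : ℕ) : ℝ)⁻¹ =
      ∑ F ∈ G.filter (fun F => ¬ k ≤ F.card), ((n.choose F.card : ℕ) : ℝ)⁻¹ := by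
    rw [filter_compls G k q hkq, sum_compls]
    apply sum_congr rfl
    intro F _
    have h4 := card_le_univ F
    rw [Fintype.card_fin] at h4
    rw [card_compl, Fintype.card_fin, Nat.choose_symm h4]
  rw [h3] at h2
  have e1 := g_succ n k (by omega)
  have e2 := g_succ n q (by omega)
  rw [e1] at h1
  rw [e2] at h2
  have e3 : (n : ℝ) - k = q - 1 := by
    have : (k : ℝ) + q = n + 1 := by exact_mod_cast hkq
    linarith
  have e4 : (n : ℝ) - q = k - 1 := by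
    have : (k : ℝ) + q = n + 1 := by exact_mod_cast hkq
    linarith
  rw [e3] at h1
  rw [e4] at h2
  have e5 : (cntT G k : ℝ) / (n.choose k : ℕ) + (excE G k : ℝ) * ((k + 1) / (q - 1) - 1) / (n.choose k : ℕ)
      = (cntT G k : ℝ) * ((n.choose k : ℕ) : ℝ)⁻¹ + (excE G k : ℝ) *
        (((n.choose k : ℕ) : ℝ)⁻¹ * ((k + 1) / (q - 1)) - ((n.choose k : ℕ) : ℝ)⁻¹) := by
    ring
  have e6 : (cntT Gᶜˢ q : ℝ) / (n.choose q : ℕ) +
      (excE Gᶜˢ q : ℝ) * ((q + 1) / (k - 1) - 1) / (n.choose q : ℕ)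
      = (cntT Gᶜˢ q : ℝ) * ((n.choose q : ℕ) : ℝ)⁻¹ + (excE Gᶜˢ q : ℝ) *
        (((n.choose q : ℕ) : ℝ)⁻¹ * ((q + 1) / (k - 1)) - ((n.choose q : ℕ) : ℝ)⁻¹) := by
    ring
  linarith

end Pool.Agent.Q130.FAC
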