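import Mathlib
import Pool.Agent.Q130.FAC.Lym

set_option autoImplicit false

/-!
The main argument.
-/

namespace Pool.Agent.Q130.FAC

open Finset Pool.Agent.TH393.Lk
open scoped FinsetFamily

variable {n : ℕ}

lemma excE_pos {G : Finset (Finset (Fin n))} {s : ℕ} (h : 1 ≤ excE G s) : s + 1 ≤ n := by
  by_contra hs
  push Not at hs
  have : excE G s = 0 := by
    unfold excE
    apply sum_eq_zero
    intro F hF
    have h1 := card_le_univ F
    rw [Fintype.card_fin] at h1
    omega
  omega

/-- numerical conclusion -/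
lemma no_excess (k q : ℕ) (hk : 1 ≤ k) (hq : 1 ≤ q) (hkq : k + q = n + 1)
    (𝒜 : Finset (Finset (Fin n))) (h𝒜 : Colex.IsInitSeg 𝒜 k)
    (hmax : ∀ C : Finset (Fin n), C.card = k → C ∉ 𝒜 →
      ∃ B ∈ powersetCard (k - 1) univ \ ∂ 𝒜, B ⊆ C)
    (G : Finset (Finset (Fin n))) (hG : IsAntichain (· ⊆ ·) (G : Set (Finset (Fin n))))
    (hcard : G.card = 𝒜.card + (powersetCard (k - 1) univ \ ∂ 𝒜).card)
    (hvol : ∑ F ∈ G, F.card = k * 𝒜.card + (k - 1) * (powersetCard (k - 1) univ \ ∂ 𝒜).card) :
    excE G k = 0 ∧ excE Gᶜˢ q = 0 := by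
  obtain ⟨ℬ, hℬ⟩ : ∃ ℬ, ℬ = powersetCard (k - 1) univ \ ∂ 𝒜 := ⟨_, rfl⟩
  rw [← hℬ] at hmax hcard hvol
  obtain ⟨m, hm⟩ : ∃ m, m = 𝒜.card := ⟨_, rfl⟩
  obtain ⟨m', hm'⟩ : ∃ m', m' = ℬ.card := ⟨_, rfl⟩
  rw [← hm, ← hm'] at hcard hvol
  have hn1 : 1 ≤ n := by omega
  -- basic equalities
  have hs1 := split_card G k q hkq
  have hs2 := split_vol G k q hk hkq
  obtain ⟨T, hT⟩ : ∃ T, T = cntT G k := ⟨_, rfl⟩
  obtain ⟨E, hE⟩ : ∃ E, E = excE G k := ⟨_, rfl⟩
  obtain ⟨D, hD⟩ : ∃ D, D = cntT Gᶜˢ q := ⟨_, rfl⟩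
  obtain ⟨E', hE'⟩ : ∃ E', E' = excE Gᶜˢ q := ⟨_, rfl⟩
  have hA1 := lemmaA' G hG k
  have hA2 := lemmaA' Gᶜˢ (compls_antichain G hG) q
  have hc1 := cross G hG k q hk hkq
  have hc2 := cross Gᶜˢ (compls_antichain G hG) q k hq (by omega)
  rw [compls_compls] at hc2
  obtain ⟨x, hx⟩ : ∃ x, x = (falling k G).card := ⟨_, rfl⟩
  obtain ⟨y, hy⟩ : ∃ y, y = (falling q Gᶜˢ).card := ⟨_, rfl⟩
  have hpos1 := @excE_pos n G k
  have hpos2 := @excE_pos n Gᶜˢ q
  have hL := lym_form G hG k q
  rw [← hT, ← hE, ← hD, ← hE'] at hL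
  rw [← hE] at hpos1
  rw [← hE'] at hpos2
  rw [← hT, ← hD] at hs1
  rw [← hT, ← hE, ← hD, ← hE', hvol] at hs2
  rw [← hT, ← hE, ← hx] at hA1
  rw [← hD, ← hE', ← hy] at hA2
  rw [← hx, ← hy] at hc1
  rw [← hx, ← hy] at hc2
  rw [← hE, ← hE']
  rw [hcard] at hs1
  have h1 : T + E = m + E' := by
    obtain ⟨κ, rfl⟩ : ∃ κ, k = κ + 1 := ⟨k - 1, by omega⟩
    simp only [Nat.add_sub_cancel] at hs2
    have e1 : (κ + 1) * T + E + κ * D = κ * (T + D) + T + E := by ring
    have e2 : (κ + 1) * m + κ * m' + E' = κ * (m + m') + m + E' := by ring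
    rw [e1, e2, hs1] at hs2
    omega
  have h2 : D + E' = m' + E := by omega
  -- the maximal squashed flat antichain
  have hch : n.choose (k - 1) = n.choose q := by
    rw [← Nat.choose_symm (by omega : q ≤ n)]
    congr 1
    omega
  have hch2 : n.choose (q - 1) = n.choose k := by
    rw [← Nat.choose_symm (by omega : k ≤ n)]
    congr 1
    omega
  have hsubsh : ∂ 𝒜 ⊆ powersetCard (k - 1) univ := by
    intro u hu
    obtain ⟨s, hs, a, ha, rfl⟩ := mem_shadow_iff.1 hu
    rw [mem_powersetCard]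
    refine ⟨subset_univ _, ?_⟩
    rw [card_erase_of_mem ha, h𝒜.1 (mem_coe.2 hs)]
  have hsh := initSeg_shadow h𝒜
  rw [← hm] at hsh
  have h7 : Fm k m + m' = n.choose q := by
    have := card_sdiff_add_card_eq_card hsubsh
    rw [← hℬ, ← hm', hsh, card_powersetCard, card_univ, Fintype.card_fin, hch] at this
    omega
  have hmle : m ≤ n.choose k := by
    have h := card_le_choose 𝒜 (fun A hA => h𝒜.1 (mem_coe.2 hA))
    rw [card_powersetCard, card_univ, Fintype.card_fin, ← hm] at h
    exact h
  have h8 : Fm q m' + m = n.choose k := by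
    have hI := init_compls hk hkq h𝒜
    rw [← hℬ] at hI
    have hshB := initSeg_shadow hI
    rw [card_compls, ← hm'] at hshB
    have hAsub : 𝒜ᶜˢ ⊆ powersetCard (q - 1) univ := by
      intro u hu
      rw [mem_compls] at hu
      have := h𝒜.1 (mem_coe.2 hu)
      rw [card_compl, Fintype.card_fin] at this
      have h9 := card_le_univ u
      rw [Fintype.card_fin] at h9
      rw [mem_powersetCard]
      exact ⟨subset_univ _, by omega⟩
    have hset : ∂ ℬᶜˢ = powersetCard (q - 1) univ \ 𝒜ᶜˢ := by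
      ext u
      rw [mem_sdiff, mem_powersetCard, mem_compls]
      constructor
      · intro hu
        obtain ⟨s, hs, a, ha, rfl⟩ := mem_shadow_iff.1 hu
        have hsc : s.card = q := hI.1 (mem_coe.2 hs)
        refine ⟨⟨subset_univ _, by rw [card_erase_of_mem ha, hsc]⟩, ?_⟩
        intro hmem
        rw [mem_compls, hℬ, mem_sdiff] at hs
        apply hs.2
        have e : sᶜ = ((s.erase a)ᶜ).erase a := by
          rw [compl_erase, erase_insert]
          rw [mem_compl, not_not]
          exact ha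
        rw [e]
        exact erase_mem_shadow hmem (by rw [mem_compl]; exact notMem_erase a s)
      · rintro ⟨⟨-, hu⟩, hu2⟩
        have h9 := card_le_univ u
        rw [Fintype.card_fin] at h9
        obtain ⟨B, hB, hBs⟩ := hmax uᶜ (by rw [card_compl, Fintype.card_fin, hu]; omega) hu2
        have hBc : B.card = k - 1 := by
          rw [hℬ, mem_sdiff, mem_powersetCard] at hB
          exact hB.1.2
        have hss : ∃ a, a ∈ uᶜ ∧ a ∉ B := by
          by_contra h
          push Not at h
          have := card_le_card (fun a ha => h a ha : uᶜ ⊆ B)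
          rw [card_compl, Fintype.card_fin, hu, hBc] at this
          omega
        obtain ⟨a, ha, haB⟩ := hss
        refine mem_shadow_iff_insert_mem.2 ⟨a, by rwa [mem_compl] at ha, ?_⟩
        rw [mem_compls]
        have e : (insert a u)ᶜ = B := by
          symm
          apply eq_of_subset_of_card_le
          · intro b hb
            rw [mem_compl, mem_insert, not_or]
            refine ⟨fun h => haB (h ▸ hb), ?_⟩
            have := hBs hb
            rwa [mem_compl] at this
          · rw [mem_compl] at ha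
            rw [card_compl, Fintype.card_fin, card_insert_of_notMem ha, hu, hBc]
            omega
        rw [e]
        exact hB
    have := card_sdiff_add_card_eq_card hAsub
    rw [← hset, hshB, card_compls, ← hm, card_powersetCard, card_univ, Fintype.card_fin, hch2] at this
    exact this
  have h9 : ∀ M ≤ n.choose k, Fm q (n.choose q - Fm k M) + M ≤ n.choose k :=
    fun M hM => dual k q M hk hq hkq hM
  have h10 : ∀ M ≤ n.choose q, Fm k (n.choose k - Fm q M) + M ≤ n.choose q :=
    fun M hM => dual q k M hq hk (by omega) hM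
  have hc1' : Fm k x + y ≤ n.choose q := hc1
  have hc2' : Fm q y + x ≤ n.choose k := hc2
  have half1 := fun hE1 : 1 ≤ E => half k q m m' T E D E' x y (n.choose k) (n.choose q) hk hq h1 h2
    hA1 hA2 hc1' h7 h8 h9 hE1
  have half2 := fun hE1 : 1 ≤ E' => half q k m' m D E' T E y x (n.choose q) (n.choose k) hq hk
    h2 h1 hA2 hA1 hc2' h8 h7 h10 hE1
  have hcontra : 1 ≤ E → 1 ≤ E' → False := by
    intro hE1 hE1'
    have b1 := (half1 hE1).2
    have b2 := (half2 hE1').2
    have k2 : 2 ≤ k := by have := hpos2 hE1'; omega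
    have q2 : 2 ≤ q := by have := hpos1 hE1; omega
    have hL' := hL k2 q2 hkq
    have hTr : (T : ℝ) = m + E' - E := by
      have : (T : ℝ) + E = m + E' := by exact_mod_cast h1
      linarith
    have hDr : (D : ℝ) = m' + E - E' := by
      have : (D : ℝ) + E' = m' + E := by exact_mod_cast h2
      linarith
    rw [hTr, hDr] at hL'
    have hApos : (0 : ℝ) < (n.choose k : ℕ) := by exact_mod_cast Nat.choose_pos (by omega)
    have hBpos : (0 : ℝ) < (n.choose q : ℕ) := by exact_mod_cast Nat.choose_pos (by omega)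
    have hAB : (k : ℝ) * (n.choose k : ℕ) = q * (n.choose q : ℕ) := by
      obtain ⟨κ, rfl⟩ : ∃ κ, k = κ + 1 := ⟨k - 1, by omega⟩
      have h := choose_mul_sub n κ
      rw [← hch]
      have e : κ + 1 - 1 = κ := rfl
      rw [e]
      have e2 : n - κ = q := by omega
      rw [e2] at h
      exact_mod_cast h
    have hup1 : (q : ℝ) * ((n.choose q : ℕ) - m') < k * m + (q + k) / k * (n.choose q : ℕ) := by
      have hu := Fm_upper q k m
      have hr := rel1 (k - 1) (q - 1 + 1)
      have e1 : k - 1 + 1 = k := by omega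
      have e2 : k - 1 + (q - 1 + 1) + 1 = q + k := by omega
      rw [e2, e1] at hr
      -- k * C(q+k, k) = (q+1) C(q+k,k-1); use instead n+1 = q + k
      have hn : q + k = n + 1 := by omega
      have h5 : k * (q + k).choose k = (q + k) * n.choose q := by
        rw [hn, ← hch]
        obtain ⟨κ, rfl⟩ : ∃ κ, k = κ + 1 := ⟨k - 1, by omega⟩
        have := Nat.add_one_mul_choose_eq n κ
        simp only [Nat.add_sub_cancel]
        rw [this, mul_comm]
      have hk0 : (0 : ℝ) < k := by exact_mod_cast (by omega : 0 < k)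
      have h6 : (((q + k).choose k : ℕ) : ℝ) = (q + k) / k * (n.choose q : ℕ) := by
        have : (k : ℝ) * ((q + k).choose k : ℕ) = (q + k) * (n.choose q : ℕ) := by exact_mod_cast h5
        field_simp
        linarith
      rw [← h6]
      have h7' : (Fm k m : ℝ) = (n.choose q : ℕ) - m' := by
        have : (Fm k m : ℝ) + m' = (n.choose q : ℕ) := by exact_mod_cast h7
        linarith
      rw [← h7']
      have hu' : (q : ℝ) * Fm k m + 1 ≤ k * m + ((q + k).choose k : ℕ) := by exact_mod_cast hu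
      linarith
    have hup2 : (k : ℝ) * ((n.choose k : ℕ) - m) < q * m' + (k + q) / q * (n.choose k : ℕ) := by
      have hu := Fm_upper k q m'
      have hn : k + q = n + 1 := by omega
      have h5 : q * (k + q).choose q = (k + q) * n.choose k := by
        rw [hn, ← hch2]
        obtain ⟨κ, rfl⟩ : ∃ κ, q = κ + 1 := ⟨q - 1, by omega⟩
        have := Nat.add_one_mul_choose_eq n κ
        simp only [Nat.add_sub_cancel]
        rw [this, mul_comm]
      have hk0 : (0 : ℝ) < q := by exact_mod_cast (by omega : 0 < q)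
      have h6 : (((k + q).choose q : ℕ) : ℝ) = (k + q) / q * (n.choose k : ℕ) := by
        have : (q : ℝ) * ((k + q).choose q : ℕ) = (k + q) * (n.choose k : ℕ) := by exact_mod_cast h5
        field_simp
        linarith
      rw [← h6]
      have h7' : (Fm q m' : ℝ) = (n.choose k : ℕ) - m := by
        have : (Fm q m' : ℝ) + m = (n.choose k : ℕ) := by exact_mod_cast h8
        linarith
      rw [← h7']
      have hu' : (k : ℝ) * Fm q m' + 1 ≤ q * m' + ((k + q).choose q : ℕ) := by exact_mod_cast hu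
      linarith
    have r1 : ((n.choose k : ℕ) : ℝ) < m + E' := by exact_mod_cast b1
    have r2 : ((n.choose q : ℕ) : ℝ) < m' + E := by exact_mod_cast b2
    have r3 : (m : ℝ) ≤ (n.choose k : ℕ) := by exact_mod_cast hmle
    have r4 : (m' : ℝ) ≤ (n.choose q : ℕ) := by exact_mod_cast (by omega : m' ≤ n.choose q)
    rcases Nat.le_total k q with hkq' | hkq'
    · exact lymcase k q k2 hkq' _ _ m m' E E' hApos hBpos hAB (Nat.cast_nonneg _)
        (Nat.cast_nonneg _) r3 r4 r1 r2 hL' hup1
    · refine lymcase q k q2 hkq' _ _ m' m E' E hBpos hApos hAB.symm (Nat.cast_nonneg _)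
        (Nat.cast_nonneg _) r4 r3 r2 r1 ?_ hup2
      linarith
  constructor
  · by_contra h
    have hE1 : 1 ≤ E := by omega
    exact hcontra hE1 (half1 hE1).1
  · by_contra h
    have hE1 : 1 ≤ E' := by omega
    exact hcontra (half2 hE1).1 hE1

/-- the members have sizes `k - 1` or `k` -/
lemma sizes (k q : ℕ) (hkq : k + q = n + 1) (G : Finset (Finset (Fin n)))
    (h1 : excE G k = 0) (h2 : excE Gᶜˢ q = 0) : ∀ F ∈ G, F.card = k - 1 ∨ F.card = k := by
  intro F hF
  unfold excE at h1 h2
  rw [sum_eq_zero_iff] at h1 h2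
  have hn := card_le_univ F
  rw [Fintype.card_fin] at hn
  by_cases hk : k ≤ F.card
  · have := h1 F (mem_filter.2 ⟨hF, hk⟩)
    omega
  · have h3 : Fᶜ ∈ (Gᶜˢ).filter (fun F => q ≤ F.card) := by
      rw [mem_filter, mem_compls, compl_compl, card_compl, Fintype.card_fin]
      exact ⟨hF, by omega⟩
    have := h2 _ h3
    rw [card_compl, Fintype.card_fin] at this
    omega

end Pool.Agent.Q130.FAC
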